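import Mathlib

/-!
# Even functions on `Z / p` with few nonzero values and few nonzero Fourier coefficients

An even version of Chebotarev's theorem on the minors of the Fourier matrix of prime order, proved by
reduction modulo `ζ - 1`.
-/

set_option autoImplicit false

namespace Pool.Agent.Run7.h804.PV

open Polynomial

/-- A polynomial of degree less than `p` over a domain of characteristic `p` with at most `n` terms
which is divisible by `(X - 1) ^ n` is zero. -/
theorem few_terms {k : Type*} [CommRing k] [IsDomain k] {p : ℕ} [Fact p.Prime] [CharP k p] :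
    ∀ (n : ℕ) (g : k[X]), g.natDegree < p → g.support.card ≤ n → (X - C 1) ^ n ∣ g → g = 0 := by
  intro n
  induction n with
  | zero =>
    intro g _ h _
    exact Polynomial.support_eq_empty.1 (Finset.card_eq_zero.1 (Nat.le_zero.1 h))
  | succ n ih =>
    intro g hg hs hd
    by_contra hne
    obtain ⟨e, he⟩ := Polynomial.nonempty_support_iff.2 hne
    have hmp : ∀ m ∈ g.support, m < p := fun m hm =>
      lt_of_le_of_lt (Polynomial.le_natDegree_of_mem_supp m hm) hg
    set h : k[X] := X * derivative g - C (e : k) * g with hh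
    have hc : ∀ m, h.coeff m = ((m : k) - e) * g.coeff m := by
      intro m
      rw [hh, coeff_sub, coeff_C_mul]
      cases m with
      | zero => simp
      | succ m => rw [coeff_X_mul, coeff_derivative]; push_cast; ring
    have hsub : h.support ⊆ g.support.erase e := by
      intro m hm
      rw [Polynomial.mem_support_iff, hc] at hm
      rw [Finset.mem_erase, Polynomial.mem_support_iff]
      exact ⟨fun h' => hm (by rw [h']; ring), fun h' => hm (by rw [h', mul_zero])⟩
    have hcard : h.support.card ≤ n := by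
      have h1 := Finset.card_le_card hsub
      rw [Finset.card_erase_of_mem he] at h1
      omega
    have hdeg : h.natDegree < p := by
      rcases eq_or_ne h 0 with h0 | h0
      · rw [h0, natDegree_zero]; exact (Fact.out : p.Prime).pos
      · exact hmp _ (Finset.mem_of_mem_erase (hsub (Polynomial.natDegree_mem_support_of_nonzero h0)))
    have hdiv : (X - C 1) ^ n ∣ h := by
      refine dvd_sub (Dvd.dvd.mul_left ?_ _) (Dvd.dvd.mul_left ?_ _)
      · have := Polynomial.pow_sub_one_dvd_derivative_of_pow_dvd hd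
        simpa using this
      · exact (pow_dvd_pow _ (Nat.le_succ n)).trans hd
    have h0 := ih h hdeg hcard hdiv
    have hz : ∀ m, m ≠ e → g.coeff m = 0 := by
      intro m hm
      by_contra hgm
      have h1 := hc m
      rw [h0, coeff_zero] at h1
      rcases mul_eq_zero.1 h1.symm with h2 | h2
      · have h3 : (m : k) = (e : k) := sub_eq_zero.1 h2
        have h4 := (CharP.natCast_eq_natCast k p).1 h3
        have h5 := hmp m (Polynomial.mem_support_iff.2 hgm)
        have h6 := hmp e he
        rw [Nat.ModEq, Nat.mod_eq_of_lt h5, Nat.mod_eq_of_lt h6] at h4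
        exact hm h4
      · exact hgm h2
    have h7 : g = C (g.coeff e) * X ^ e := by
      ext m
      rw [coeff_C_mul_X_pow]
      split_ifs with h8
      · rw [h8]
      · exact hz m h8
    have h8 : (X - C (1 : k)) ∣ g := (dvd_pow_self _ (Nat.succ_ne_zero n)).trans hd
    have h9 := Polynomial.dvd_iff_isRoot.1 h8
    rw [h7, IsRoot, eval_mul, eval_C, eval_pow, eval_X, one_pow, mul_one] at h9
    exact Polynomial.mem_support_iff.1 he h9

theorem charP_quot {R : Type*} [CommRing R] [IsDomain R] {p : ℕ} [Fact p.Prime] {q : R}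
    (hq : Prime q) (hpq : q ∣ (p : R)) : CharP (R ⧸ Ideal.span {q}) p := by
  have : (Ideal.span {q}).IsPrime := (Ideal.span_singleton_prime hq.ne_zero).2 hq
  obtain ⟨r, hr⟩ := CharP.exists (R ⧸ Ideal.span {q})
  have h0 : ((p : ℕ) : R ⧸ Ideal.span {q}) = 0 := by
    have : (Ideal.Quotient.mk (Ideal.span {q})) (p : R) = 0 :=
      Ideal.Quotient.eq_zero_iff_mem.2 (Ideal.mem_span_singleton.2 hpq)
    simpa using this
  have h1 : r ∣ p := (CharP.cast_eq_zero_iff _ r p).1 h0
  rcases (Nat.dvd_prime (Fact.out : p.Prime)).1 h1 with h2 | h2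
  · exfalso
    subst h2
    have h3 : ((1 : ℕ) : R ⧸ Ideal.span {q}) = 0 := CharP.cast_eq_zero _ 1
    rw [Nat.cast_one] at h3
    exact one_ne_zero h3
  · rw [← h2]; exact hr

/-- If a polynomial of degree less than `p` has at most as many terms as given linear factors
`X - x` with `x ≡ 1` modulo the prime element `q` above `p`, then `q` divides its coefficients. -/
theorem core {R : Type*} [CommRing R] [IsDomain R] {p : ℕ} [Fact p.Prime] {q : R} (hq : Prime q)
    (hpq : q ∣ (p : R)) (g : R[X]) (hg : g.natDegree < p) (s : Multiset R)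
    (hs1 : ∀ x ∈ s, q ∣ x - 1) (hs : (s.map fun x => X - C x).prod ∣ g)
    (hc : g.support.card ≤ Multiset.card s) (m : ℕ) : q ∣ g.coeff m := by
  have : (Ideal.span {q}).IsPrime := (Ideal.span_singleton_prime hq.ne_zero).2 hq
  have := charP_quot hq hpq
  set φ := Ideal.Quotient.mk (Ideal.span {q}) with hφ
  have h1 : (X - C 1) ^ (Multiset.card s) ∣ g.map φ := by
    have h2 : ((s.map fun x => X - C x).prod).map φ = (X - C 1) ^ (Multiset.card s) := by
      rw [Polynomial.map_multiset_prod, Multiset.map_map]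
      have h3 : ∀ x ∈ s, (Polynomial.map φ ∘ fun x => X - C x) x = (X - C 1) := by
        intro x hx
        have h4 : φ x = 1 := by
          have : φ (x - 1) = 0 :=
            Ideal.Quotient.eq_zero_iff_mem.2 (Ideal.mem_span_singleton.2 (hs1 x hx))
          rw [map_sub, map_one] at this
          exact sub_eq_zero.1 this
        simp [h4]
      rw [Multiset.map_congr rfl h3, Multiset.map_const', Multiset.prod_replicate]
    rw [← h2]
    exact Polynomial.map_dvd φ hs
  have h5 := few_terms (p := p) _ (g.map φ) (lt_of_le_of_lt natDegree_map_le hg)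
    ((Finset.card_le_card (Polynomial.support_map_subset φ g)).trans hc) h1
  have h6 := congrArg (fun f => f.coeff m) h5
  simp only [coeff_map, coeff_zero] at h6
  exact Ideal.mem_span_singleton.1 (Ideal.Quotient.eq_zero_iff_mem.1 h6)

/-- the even polynomial with the coefficients `c τ`, centred at `N` -/
noncomputable def ev {R : Type*} [CommRing R] (N : ℕ) (T : Finset ℕ) (c : ℕ → R) : R[X] :=
  ∑ τ ∈ T, C (c τ) * (X ^ (N + τ) + X ^ (N - τ))

theorem ev_eval {R : Type*} [CommRing R] (N : ℕ) (T : Finset ℕ) (c : ℕ → R) (x : R) :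
    (ev N T c).eval x = ∑ τ ∈ T, c τ * (x ^ (N + τ) + x ^ (N - τ)) := by
  unfold ev
  rw [eval_finsetSum]
  exact Finset.sum_congr rfl fun τ _ => by simp

theorem ev_coeff {R : Type*} [CommRing R] (N : ℕ) (T : Finset ℕ) (c : ℕ → R) (m : ℕ) :
    (ev N T c).coeff m =
      ∑ τ ∈ T, c τ * ((if m = N + τ then 1 else 0) + (if m = N - τ then 1 else 0)) := by
  unfold ev
  rw [finsetSum_coeff]
  exact Finset.sum_congr rfl fun τ _ => by
    rw [coeff_C_mul, coeff_add, coeff_X_pow, coeff_X_pow]

theorem ev_support {R : Type*} [CommRing R] (N : ℕ) (T : Finset ℕ) (c : ℕ → R) :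
    (ev N T c).support.card ≤ 2 * T.card := by
  classical
  have h : (ev N T c).support ⊆ T.image (N + ·) ∪ T.image (N - ·) := by
    intro m hm
    rw [mem_support_iff, ev_coeff] at hm
    obtain ⟨τ, hτ, h1⟩ := Finset.exists_ne_zero_of_sum_ne_zero hm
    rw [Finset.mem_union, Finset.mem_image, Finset.mem_image]
    by_cases h2 : m = N + τ
    · exact Or.inl ⟨τ, hτ, h2.symm⟩
    · by_cases h3 : m = N - τ
      · exact Or.inr ⟨τ, hτ, h3.symm⟩
      · rw [if_neg h2, if_neg h3] at h1
        simp at h1
  calc _ ≤ _ := Finset.card_le_card h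
    _ ≤ _ := Finset.card_union_le _ _
    _ ≤ T.card + T.card := Nat.add_le_add Finset.card_image_le Finset.card_image_le
    _ = _ := by ring

theorem ev_natDegree {R : Type*} [CommRing R] (N : ℕ) (T : Finset ℕ) (c : ℕ → R)
    (hT : T ⊆ Finset.range (N + 1)) : (ev N T c).natDegree < 2 * N + 1 := by
  rw [Nat.lt_succ_iff, natDegree_le_iff_coeff_eq_zero]
  intro m hm
  rw [ev_coeff]
  refine Finset.sum_eq_zero fun τ hτ => ?_
  have := Finset.mem_range.1 (hT hτ)
  rw [if_neg (by omega), if_neg (by omega)]
  simp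

/-- one step of the descent -/
theorem step {R : Type*} [CommRing R] [IsDomain R] {p N : ℕ} [Fact p.Prime] (hpN : p = 2 * N + 1)
    {ζ : R} (hζ : IsPrimitiveRoot ζ p) (hq : Prime (ζ - 1)) (hpq : (ζ - 1) ∣ (p : R))
    (S T : Finset ℕ) (hS : S ⊆ Finset.range (N + 1)) (hS0 : 0 ∈ S) (hT : T ⊆ Finset.range (N + 1))
    (hcard : T.card ≤ S.card) (c : ℕ → R)
    (h : ∀ s ∈ S, ∑ τ ∈ T, c τ * ((ζ ^ s) ^ (N + τ) + (ζ ^ s) ^ (N - τ)) = 0) :
    ∀ τ ∈ T, (ζ - 1) ∣ c τ := by
  classical
  have hprime : p.Prime := Fact.out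
  have hall : ∀ m, (ζ - 1) ∣ (ev N T c).coeff m := by
    intro m
    rcases eq_or_ne (ev N T c) 0 with h0 | h0
    · rw [h0, coeff_zero]; exact dvd_zero _
    have hroot : ∀ s ∈ S, (ev N T c).eval (ζ ^ s) = 0 := fun s hs => by
      rw [ev_eval]; exact h s hs
    have hroot' : ∀ s ∈ S, (ev N T c).eval (ζ ^ (p - s)) = 0 := by
      intro s hs
      have hsN := Finset.mem_range.1 (hS hs)
      have h1 : ζ ^ s * ζ ^ (p - s) = 1 := by
        rw [← pow_add, Nat.add_sub_cancel' (by omega), hζ.pow_eq_one]
      have h2 : (ev N T c).eval (ζ ^ (p - s)) =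
          (ζ ^ (p - s)) ^ (2 * N) * (ev N T c).eval (ζ ^ s) := by
        rw [ev_eval, ev_eval, Finset.mul_sum]
        refine Finset.sum_congr rfl fun τ hτ => ?_
        have hτN := Finset.mem_range.1 (hT hτ)
        set x := ζ ^ s
        set y := ζ ^ (p - s)
        have h3 : y ^ (2 * N) * x ^ (N - τ) = y ^ (N + τ) := by
          have : 2 * N = (N + τ) + (N - τ) := by omega
          rw [this, pow_add, mul_assoc, ← mul_pow, mul_comm y x, h1, one_pow, mul_one]
        have h4 : y ^ (2 * N) * x ^ (N + τ) = y ^ (N - τ) := by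
          have : 2 * N = (N - τ) + (N + τ) := by omega
          rw [this, pow_add, mul_assoc, ← mul_pow, mul_comm y x, h1, one_pow, mul_one]
        calc c τ * (y ^ (N + τ) + y ^ (N - τ)) =
            c τ * (y ^ (2 * N) * x ^ (N - τ) + y ^ (2 * N) * x ^ (N + τ)) := by rw [h3, h4]
          _ = _ := by ring
      rw [h2, hroot s hs, mul_zero]
    have hone : (ev N T c).eval 1 = 0 := by
      have := hroot 0 hS0
      rwa [pow_zero] at this
    have hder : (derivative (ev N T c)).eval 1 = 0 := by
      have h1 : (derivative (ev N T c)).eval 1 = (N : R) * (ev N T c).eval 1 := by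
        rw [ev_eval]
        unfold ev
        rw [derivative_sum, eval_finsetSum, Finset.mul_sum]
        refine Finset.sum_congr rfl fun τ hτ => ?_
        have hτN := Finset.mem_range.1 (hT hτ)
        rw [derivative_C_mul, derivative_add, derivative_X_pow, derivative_X_pow]
        simp only [eval_mul, eval_C, eval_add, eval_pow, eval_X, one_pow, mul_one]
        rw [Nat.cast_add, Nat.cast_sub (by omega)]
        ring
      rw [h1, hone, mul_zero]
    set E : Finset ℕ := S.erase 0 ∪ (S.erase 0).image (fun s => p - s) with hE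
    have hE1 : ∀ e ∈ E, 1 ≤ e ∧ e < p := by
      intro e he
      rw [hE, Finset.mem_union, Finset.mem_image] at he
      rcases he with he | ⟨s, hs, rfl⟩
      · have h1 := Finset.mem_erase.1 he
        have h2 := Finset.mem_range.1 (hS h1.2)
        omega
      · have h1 := Finset.mem_erase.1 hs
        have h2 := Finset.mem_range.1 (hS h1.2)
        omega
    have hEcard : E.card = 2 * (S.card - 1) := by
      have hdis : Disjoint (S.erase 0) ((S.erase 0).image (fun s => p - s)) := by
        rw [Finset.disjoint_left]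
        intro e he he'
        obtain ⟨s, hs, rfl⟩ := Finset.mem_image.1 he'
        have h1 := Finset.mem_erase.1 hs
        have h2 := Finset.mem_range.1 (hS h1.2)
        have h3 := Finset.mem_erase.1 he
        have h4 := Finset.mem_range.1 (hS h3.2)
        omega
      rw [hE, Finset.card_union_of_disjoint hdis, Finset.card_image_of_injOn,
        Finset.card_erase_of_mem hS0]
      · ring
      · intro s hs s' hs' hss
        have h1 := Finset.mem_erase.1 hs
        have h2 := Finset.mem_range.1 (hS h1.2)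
        have h1' := Finset.mem_erase.1 hs'
        have h2' := Finset.mem_range.1 (hS h1'.2)
        simp only at hss
        omega
    have hEroot : ∀ e ∈ E, (ev N T c).eval (ζ ^ e) = 0 := by
      intro e he
      rw [hE, Finset.mem_union, Finset.mem_image] at he
      rcases he with he | ⟨s, hs, rfl⟩
      · exact hroot e (Finset.mem_of_mem_erase he)
      · exact hroot' s (Finset.mem_of_mem_erase hs)
    set A : Finset R := E.image (fun e => ζ ^ e) with hA
    have hAcard : A.card = 2 * (S.card - 1) := by
      rw [hA, Finset.card_image_of_injOn, hEcard]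
      intro e he e' he' hee
      exact hζ.pow_inj (hE1 e he).2 (hE1 e' he').2 hee
    have hA1 : (1 : R) ∉ A := by
      intro h1
      obtain ⟨e, he, he1⟩ := Finset.mem_image.1 h1
      have h2 := hE1 e he
      exact hζ.pow_ne_one_of_pos_of_lt (by omega) h2.2 he1
    have hmult : 2 ≤ rootMultiplicity (1 : R) (ev N T c) :=
      (Polynomial.one_lt_rootMultiplicity_iff_isRoot h0).2 ⟨hone, hder⟩
    have hSpos : 1 ≤ S.card := Finset.card_pos.2 ⟨0, hS0⟩
    refine core hq hpq (ev N T c) (by rw [hpN]; exact ev_natDegree N T c hT)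
      (1 ::ₘ 1 ::ₘ A.val) ?_ ?_ ?_ m
    · intro x hx
      rw [Multiset.mem_cons, Multiset.mem_cons] at hx
      rcases hx with rfl | rfl | hx
      · rw [sub_self]; exact dvd_zero _
      · rw [sub_self]; exact dvd_zero _
      · have hxA : x ∈ A := hx
        obtain ⟨e, he, rfl⟩ := Finset.mem_image.1 hxA
        simpa using sub_dvd_pow_sub_pow ζ 1 e
    · rw [Multiset.prod_X_sub_C_dvd_iff_le_roots h0, Multiset.le_iff_count]
      intro x
      rw [count_roots]
      by_cases hx1 : x = 1
      · subst hx1
        rw [Multiset.count_cons_self, Multiset.count_cons_self,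
          Multiset.count_eq_zero_of_notMem (by rwa [Finset.mem_val])]
        exact hmult
      · rw [Multiset.count_cons_of_ne hx1, Multiset.count_cons_of_ne hx1]
        by_cases hxA : x ∈ A
        · rw [Multiset.count_eq_one_of_mem A.nodup (by rwa [Finset.mem_val])]
          obtain ⟨e, he, rfl⟩ := Finset.mem_image.1 hxA
          exact (rootMultiplicity_pos h0).2 (hEroot e he)
        · rw [Multiset.count_eq_zero_of_notMem (by rwa [Finset.mem_val])]
          exact Nat.zero_le _
    · rw [Multiset.card_cons, Multiset.card_cons, Finset.card_val, hAcard]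
      have := ev_support N T c
      omega
  have h2q : ¬ (ζ - 1) ∣ (2 : R) := by
    intro h2
    apply hq.not_isUnit
    apply isUnit_of_dvd_one
    have h4 : (ζ - 1) ∣ ((p : R) - 2 * N) := dvd_sub hpq (Dvd.dvd.mul_right h2 _)
    have h3 : (p : R) - 2 * N = 1 := by
      rw [hpN]; push_cast; ring
    rwa [h3] at h4
  intro τ hτ
  have h1 := hall (N + τ)
  rw [ev_coeff] at h1
  by_cases hτ0 : τ = 0
  · subst hτ0
    rw [Finset.sum_eq_single_of_mem 0 hτ] at h1
    · rw [if_pos rfl, if_pos (by simp)] at h1
      have h2 : c 0 * (1 + 1) = 2 * c 0 := by ring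
      rw [h2] at h1
      exact (hq.dvd_or_dvd h1).resolve_left h2q
    · intro b hbT hb
      have hbN := Finset.mem_range.1 (hT hbT)
      rw [if_neg (by omega), if_neg (by omega)]
      simp
  · rw [Finset.sum_eq_single_of_mem τ hτ] at h1
    · rw [if_pos rfl, if_neg (by omega)] at h1
      simpa using h1
    · intro b _ hb
      rw [if_neg (by omega), if_neg (by omega)]
      simp

/-- **Even uncertainty principle.** -/
theorem even_unc {R : Type*} [CommRing R] [IsDomain R] [IsNoetherianRing R] {p N : ℕ}
    [Fact p.Prime] (hpN : p = 2 * N + 1)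
    {ζ : R} (hζ : IsPrimitiveRoot ζ p) (hq : Prime (ζ - 1)) (hpq : (ζ - 1) ∣ (p : R))
    (S T : Finset ℕ) (hS : S ⊆ Finset.range (N + 1)) (hS0 : 0 ∈ S) (hT : T ⊆ Finset.range (N + 1))
    (hcard : T.card ≤ S.card) (c : ℕ → R)
    (h : ∀ s ∈ S, ∑ τ ∈ T, c τ * ((ζ ^ s) ^ (N + τ) + (ζ ^ s) ^ (N - τ)) = 0) :
    ∀ τ ∈ T, c τ = 0 := by
  have key : ∀ k : ℕ, ∀ c : ℕ → R,
      (∀ s ∈ S, ∑ τ ∈ T, c τ * ((ζ ^ s) ^ (N + τ) + (ζ ^ s) ^ (N - τ)) = 0) →
      ∀ τ ∈ T, (ζ - 1) ^ k ∣ c τ := by
    intro k
    induction k with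
    | zero => intro c _ τ _; rw [pow_zero]; exact one_dvd _
    | succ k ih =>
      intro c hc
      have h1 := step hpN hζ hq hpq S T hS hS0 hT hcard c hc
      choose! c' hc' using h1
      have h2 := ih c' (fun s hs => by
        have h3 := hc s hs
        have h4 : ∑ τ ∈ T, c τ * ((ζ ^ s) ^ (N + τ) + (ζ ^ s) ^ (N - τ)) =
            (ζ - 1) * ∑ τ ∈ T, c' τ * ((ζ ^ s) ^ (N + τ) + (ζ ^ s) ^ (N - τ)) := by
          rw [Finset.mul_sum]
          refine Finset.sum_congr rfl fun τ hτ => ?_
          rw [hc' τ hτ]; ring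
        rw [h4] at h3
        exact (mul_eq_zero.1 h3).resolve_left hq.ne_zero)
      intro τ hτ
      rw [hc' τ hτ, pow_succ']
      exact mul_dvd_mul_left _ (h2 τ hτ)
  intro τ hτ
  by_contra hne
  obtain ⟨n, hn⟩ := FiniteMultiplicity.of_not_isUnit hq.not_isUnit hne
  exact hn (key (n + 1) c h τ hτ)

end Pool.Agent.Run7.h804.PV
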