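import Mathlib
import Pool.Agent.Run7.h804.PV.Cheb

/-!
# The blocks of the rigidity matrix of a circulant graph of prime order at a placement by
# roots of unity
-/

set_option autoImplicit false

namespace Pool.Agent.Run7.h804.PV

/-- the even uncertainty principle for a `p`-th root of unity `ζ`, `p = 2 N + 1` -/
def Good {K : Type} [Field K] (N : ℕ) (ζ : K) : Prop :=
  ∀ (S T : Finset ℕ), S ⊆ Finset.range (N + 1) → 0 ∈ S → T ⊆ Finset.range (N + 1) →
    T.card ≤ S.card → ∀ c : ℕ → K,
    (∀ s ∈ S, ∑ τ ∈ T, c τ * ((ζ ^ s) ^ (N + τ) + (ζ ^ s) ^ (N - τ)) = 0) → ∀ τ ∈ T, c τ = 0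

theorem good_zeta (K : Type) [Field K] [NumberField K] (p N : ℕ) [Fact p.Prime]
    [IsCyclotomicExtension {p} ℚ K] (hpN : p = 2 * N + 1) :
    ∃ ζ : K, IsPrimitiveRoot ζ p ∧ Good N ζ := by
  have hp : p.Prime := Fact.out
  have : NeZero p := ⟨hp.ne_zero⟩
  have hζ : IsPrimitiveRoot (IsCyclotomicExtension.zeta p ℚ K) p :=
    IsCyclotomicExtension.zeta_spec p ℚ K
  set z : NumberField.RingOfIntegers K := hζ.toInteger with hz
  have hz1 : IsPrimitiveRoot z p := hζ.toInteger_isPrimitiveRoot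
  have hq : Prime (z - 1) := hζ.zeta_sub_one_prime'
  have hpq : (z - 1) ∣ (p : NumberField.RingOfIntegers K) := by
    have h1 := hz1.geom_sum_eq_zero hp.one_lt
    have h2 : (p : NumberField.RingOfIntegers K) = ∑ i ∈ Finset.range p, (1 - z ^ i) := by
      rw [Finset.sum_sub_distrib, h1]
      simp
    rw [h2]
    refine Finset.dvd_sum fun i _ => ?_
    have h3 : (z - 1) ∣ (z ^ i - 1 ^ i) := sub_dvd_pow_sub_pow z 1 i
    rw [one_pow] at h3
    have h4 := (dvd_neg (a := z - 1)).2 h3
    rwa [neg_sub] at h4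
  have hinj : Function.Injective (algebraMap (NumberField.RingOfIntegers K) K) :=
    FaithfulSMul.algebraMap_injective _ _
  refine ⟨algebraMap (NumberField.RingOfIntegers K) K z, hz1.map_of_injective hinj, ?_⟩
  intro S T hS hS0 hT hcard c h
  obtain ⟨b, hb⟩ := IsLocalization.exist_integer_multiples
    (nonZeroDivisors (NumberField.RingOfIntegers K)) T c
  choose! c' hc' using hb
  have h1 := even_unc hpN hz1 hq hpq S T hS hS0 hT hcard c' (by
    intro s hs
    apply hinj
    rw [map_zero, map_sum]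
    have h2 : ∑ τ ∈ T, (algebraMap (NumberField.RingOfIntegers K) K)
        (c' τ * ((z ^ s) ^ (N + τ) + (z ^ s) ^ (N - τ))) =
        (algebraMap (NumberField.RingOfIntegers K) K b) * ∑ τ ∈ T, c τ *
        (((algebraMap (NumberField.RingOfIntegers K) K z) ^ s) ^ (N + τ) +
        ((algebraMap (NumberField.RingOfIntegers K) K z) ^ s) ^ (N - τ)) := by
      rw [Finset.mul_sum]
      refine Finset.sum_congr rfl fun τ hτ => ?_
      have h3 := hc' τ hτ
      rw [Algebra.smul_def] at h3
      simp only [map_mul, h3, map_add, map_pow]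
      ring
    rw [h2, h s hs, mul_zero])
  intro τ hτ
  have h3 := hc' τ hτ
  rw [h1 τ hτ, map_zero, Algebra.smul_def] at h3
  rcases mul_eq_zero.1 h3.symm with h4 | h4
  · exfalso
    have h5 : (b : NumberField.RingOfIntegers K) = 0 := hinj (by rw [h4, map_zero])
    exact nonZeroDivisors.ne_zero b.2 h5
  · exact h4

theorem exists_good (p N : ℕ) [Fact p.Prime] (hpN : p = 2 * N + 1) :
    ∃ (K : Type) (_ : Field K) (_ : CharZero K) (ζ : K), IsPrimitiveRoot ζ p ∧ Good N ζ := by
  have : NeZero p := ⟨(Fact.out : p.Prime).ne_zero⟩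
  have hcyc : @IsCyclotomicExtension {p} ℚ (CyclotomicField p ℚ) _ _ DivisionRing.toRatAlgebra := by
    have h0 := CyclotomicField.isCyclotomicExtension p ℚ
    have h1 : (CyclotomicField.algebra p ℚ) =
        (DivisionRing.toRatAlgebra : Algebra ℚ (CyclotomicField p ℚ)) := Subsingleton.elim _ _
    rw [h1] at h0
    exact h0
  have : NumberField (CyclotomicField p ℚ) := inferInstance
  obtain ⟨ζ, h1, h2⟩ := good_zeta (CyclotomicField p ℚ) p N hpN
  exact ⟨CyclotomicField p ℚ, inferInstance, inferInstance, ζ, h1, h2⟩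

variable {K : Type} [Field K] {p N : ℕ} [Fact p.Prime]

/-- the size of a residue class -/
def sz (t : ZMod p) : ℕ := t.valMinAbs.natAbs

theorem sz_le (hpN : p = 2 * N + 1) (t : ZMod p) : sz t ≤ N := by
  have : NeZero p := ⟨(Fact.out : p.Prime).ne_zero⟩
  have h := ZMod.natAbs_valMinAbs_le t
  unfold sz
  omega

theorem sz_eq (t t' : ZMod p) : sz t = sz t' ↔ t = t' ∨ t = -t' := by
  have : NeZero p := ⟨(Fact.out : p.Prime).ne_zero⟩
  exact ZMod.natAbs_valMinAbs_eq_natAbs_valMinAbs

/-- `ζ ^ (s (N + τ)) + ζ ^ (s (N - τ)) = e (s N) (e (s t) + e (- s t))` -/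
theorem ev_char (hpN : p = 2 * N + 1) (e : AddChar (ZMod p) K) (t : ZMod p) (s : ℕ) :
    ((e 1 ^ s) ^ (N + sz t) + (e 1 ^ s) ^ (N - sz t)) =
      e ((s : ZMod p) * N) * (e (s * t) + e (-(s * t))) := by
  have : NeZero p := ⟨(Fact.out : p.Prime).ne_zero⟩
  have hle := sz_le hpN t
  have h1 : ∀ m : ℕ, (e 1 ^ s) ^ m = e ((s : ZMod p) * m) := by
    intro m
    rw [← pow_mul, ← AddChar.map_nsmul_eq_pow, nsmul_eq_mul, mul_one, Nat.cast_mul]
  have h2 : ((sz t : ℕ) : ZMod p) = t ∨ ((sz t : ℕ) : ZMod p) = -t := by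
    unfold sz
    rw [ZMod.natCast_natAbs_valMinAbs]
    split_ifs
    · exact Or.inl rfl
    · exact Or.inr rfl
  rw [h1, h1, Nat.cast_sub hle, Nat.cast_add]
  rcases h2 with h2 | h2
  · rw [h2, mul_add, mul_sub, AddChar.map_add_eq_mul, sub_eq_add_neg, AddChar.map_add_eq_mul]
    ring
  · rw [h2, mul_add, mul_sub, AddChar.map_add_eq_mul, sub_eq_add_neg, AddChar.map_add_eq_mul]
    have h3 : -((s : ZMod p) * -t) = s * t := by ring
    have h4 : ((s : ZMod p) * -t) = -(s * t) := by ring
    rw [h3, h4]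
    ring

/-- The block of the frequency `j` is injective on vectors supported on a set of indices without
coincidences. -/
theorem block (hpN : p = 2 * N + 1) (e : AddChar (ZMod p) K) (hgood : Good N (e 1))
    {ι : Type} [Fintype ι] [DecidableEq ι] (a : ι → ZMod p) (j : ZMod p) (I : Finset ι)
    (h0 : ∀ i ∈ I, a i ≠ 0 ∧ a i ≠ j)
    (h1 : ∀ i ∈ I, ∀ i' ∈ I, i ≠ i' → a i ≠ a i' ∧ a i + a i' ≠ j)
    (S : Finset ℕ) (hS : ∀ s ∈ S, 1 ≤ s ∧ s ≤ N) (hcard : I.card ≤ S.card)
    (M : ι → K) (hM : ∀ i, i ∉ I → M i = 0)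
    (h : ∀ s ∈ S, ∑ i, (e (a i * s) - 1) * (e ((j - a i) * s) - 1) * M i = 0) : M = 0 := by
  classical
  have hp : p.Prime := Fact.out
  have : NeZero p := ⟨hp.ne_zero⟩
  rcases Nat.eq_zero_or_pos N with hN0 | hN0
  · exfalso
    rw [hN0] at hpN
    exact hp.one_lt.ne' hpN
  have h2 : (2 : ZMod p) ≠ 0 := by
    intro h2
    have h3 : ((2 : ℕ) : ZMod p) = 0 := by exact_mod_cast h2
    have h4 := (ZMod.natCast_eq_zero_iff 2 p).1 h3
    have := Nat.le_of_dvd (by norm_num) h4
    omega
  obtain ⟨g, hg⟩ : ∃ g : ZMod p, g + g = j := by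
    refine ⟨j / 2, ?_⟩
    rw [← two_mul, mul_div_cancel₀ _ h2]
  set b : ι → ZMod p := fun i => a i - g with hb
  have hbg : ∀ i ∈ I, sz (b i) ≠ sz g := by
    intro i hi h3
    rcases (sz_eq _ _).1 h3 with h4 | h4
    · apply (h0 i hi).2
      rw [← hg]
      have : a i = b i + g := by rw [hb]; ring
      rw [this, h4]
    · apply (h0 i hi).1
      have : a i = b i + g := by rw [hb]; ring
      rw [this, h4]; ring
  have hbb : ∀ i ∈ I, ∀ i' ∈ I, i ≠ i' → sz (b i) ≠ sz (b i') := by
    intro i hi i' hi' hne h3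
    rcases (sz_eq _ _).1 h3 with h4 | h4
    · apply (h1 i hi i' hi' hne).1
      have e1 : a i = b i + g := by rw [hb]; ring
      have e2 : a i' = b i' + g := by rw [hb]; ring
      rw [e1, e2, h4]
    · apply (h1 i hi i' hi' hne).2
      have e1 : a i = b i + g := by rw [hb]; ring
      have e2 : a i' = b i' + g := by rw [hb]; ring
      rw [e1, e2, h4, ← hg]; ring
  -- the sum over `I`
  have hI : ∀ s ∈ S, ∑ i ∈ I, M i * ((e (s * g) + e (-(s * g))) -
      (e (s * b i) + e (-(s * b i)))) = 0 := by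
    intro s hs
    have h3 := h s hs
    have h4 : ∑ i, (e (a i * s) - 1) * (e ((j - a i) * s) - 1) * M i =
        e (s * g) * ∑ i ∈ I, M i * ((e (s * g) + e (-(s * g))) -
          (e (s * b i) + e (-(s * b i)))) := by
      rw [Finset.mul_sum, ← Finset.sum_subset (Finset.subset_univ I)]
      · refine Finset.sum_congr rfl fun i _ => ?_
        have e1 : e (a i * s) = e (s * g) * e (s * b i) := by
          rw [← AddChar.map_add_eq_mul]; congr 1; rw [hb]; ring
        have e2 : e ((j - a i) * s) = e (s * g) * e (-(s * b i)) := by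
          rw [← AddChar.map_add_eq_mul]; congr 1; rw [hb, ← hg]; ring
        have e3 : e (s * g) * e (-(s * g)) = 1 := by
          rw [← AddChar.map_add_eq_mul, add_neg_cancel, AddChar.map_zero_eq_one]
        have e4 : e (s * b i) * e (-(s * b i)) = 1 := by
          rw [← AddChar.map_add_eq_mul, add_neg_cancel, AddChar.map_zero_eq_one]
        rw [e1, e2]
        linear_combination (e (s * g) ^ 2 * M i) * e4 - M i * e3
      · intro i _ hi
        rw [hM i hi, mul_zero]
    rw [h4] at h3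
    rcases mul_eq_zero.1 h3 with h5 | h5
    · exfalso
      have e3 : e (s * g) * e (-(s * g)) = 1 := by
        rw [← AddChar.map_add_eq_mul, add_neg_cancel, AddChar.map_zero_eq_one]
      rw [h5, zero_mul] at e3
      exact zero_ne_one e3
    · exact h5
  -- the coefficients
  set T : Finset ℕ := insert (sz g) (I.image fun i => sz (b i)) with hT
  set c : ℕ → K := fun τ => ∑ i ∈ I, M i * ((if τ = sz g then 1 else 0) -
    (if τ = sz (b i) then 1 else 0)) with hc
  have hTcard : T.card ≤ (insert 0 S).card := by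
    have h3 : (insert 0 S).card = S.card + 1 :=
      Finset.card_insert_of_notMem (fun h3 => by have := (hS 0 h3).1; omega)
    rw [h3]
    refine (Finset.card_insert_le _ _).trans ?_
    have := Finset.card_image_le (s := I) (f := fun i => sz (b i))
    omega
  have hTN : T ⊆ Finset.range (N + 1) := by
    intro τ hτ
    rw [Finset.mem_range, Nat.lt_succ_iff]
    rcases Finset.mem_insert.1 hτ with h3 | h3
    · rw [h3]; exact sz_le hpN g
    · obtain ⟨i, _, rfl⟩ := Finset.mem_image.1 h3
      exact sz_le hpN _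
  have hSN : insert 0 S ⊆ Finset.range (N + 1) := by
    intro s hs
    rw [Finset.mem_range, Nat.lt_succ_iff]
    rcases Finset.mem_insert.1 hs with h3 | h3
    · rw [h3]; exact Nat.zero_le _
    · exact (hS s h3).2
  have hsum : ∀ s : ℕ, ∑ τ ∈ T, c τ * ((e 1 ^ s) ^ (N + τ) + (e 1 ^ s) ^ (N - τ)) =
      e ((s : ZMod p) * N) * ∑ i ∈ I, M i * ((e (s * g) + e (-(s * g))) -
      (e (s * b i) + e (-(s * b i)))) := by
    intro s
    have e1 : ∀ τ ∈ T, c τ * ((e 1 ^ s) ^ (N + τ) + (e 1 ^ s) ^ (N - τ)) =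
        ∑ i ∈ I, M i * ((if τ = sz g then ((e 1 ^ s) ^ (N + τ) + (e 1 ^ s) ^ (N - τ)) else 0) -
          (if τ = sz (b i) then ((e 1 ^ s) ^ (N + τ) + (e 1 ^ s) ^ (N - τ)) else 0)) := by
      intro τ _
      rw [hc, Finset.sum_mul]
      refine Finset.sum_congr rfl fun i _ => ?_
      split_ifs <;> ring
    rw [Finset.sum_congr rfl e1, Finset.sum_comm, Finset.mul_sum]
    refine Finset.sum_congr rfl fun i hi => ?_
    rw [← Finset.mul_sum, Finset.sum_sub_distrib, Finset.sum_ite_eq', Finset.sum_ite_eq',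
      if_pos (Finset.mem_insert_self _ _),
      if_pos (Finset.mem_insert_of_mem (Finset.mem_image_of_mem (fun i => sz (b i)) hi)),
      ev_char hpN, ev_char hpN]
    ring
  have hfin := hgood (insert 0 S) T hSN (Finset.mem_insert_self _ _) hTN hTcard c (by
    intro s hs
    rw [hsum s]
    rcases Finset.mem_insert.1 hs with h3 | h3
    · subst h3
      rw [Finset.sum_eq_zero, mul_zero]
      intro i _
      simp
    · rw [hI s h3, mul_zero])
  funext i
  by_cases hi : i ∈ I
  · have h3 := hfin (sz (b i)) (Finset.mem_insert_of_mem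
      (Finset.mem_image_of_mem (fun i => sz (b i)) hi))
    rw [hc] at h3
    simp only at h3
    rw [Finset.sum_eq_single_of_mem i hi] at h3
    · rw [if_neg (hbg i hi), if_pos rfl] at h3
      have : M i = 0 := by linear_combination -h3
      exact this
    · intro i' hi' hne
      rw [if_neg (hbg i hi), if_neg (fun h4 => hbb i hi i' hi' hne.symm h4)]
      ring
  · exact hM i hi

end Pool.Agent.Run7.h804.PV
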