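import Mathlib

/-!
# The rank of a matrix of integer polynomials at points of different fields
-/

set_option autoImplicit false

namespace Pool.Agent.Run7.h804.PV

open Matrix Module

/-- linearly independent rows admit a nonvanishing maximal minor -/
theorem exists_minor {K : Type*} [Field K] {ι : Type*} [Fintype ι] {ω : ℕ} (z : Fin ω → ι → K)
    (hz : LinearIndependent K z) :
    ∃ g : Fin ω → ι, (Matrix.of fun i l => z i (g l)).det ≠ 0 := by
  classical
  let Z : Matrix (Fin ω) ι K := Matrix.of z
  have hrank : Z.rank = ω := by
    have := LinearIndependent.rank_matrix (M := Z) hz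
    simpa using this
  have hspan := Submodule.exists_fun_fin_finrank_span_eq K (Set.range Z.col)
  have hfr : finrank K (Submodule.span K (Set.range Z.col)) = ω := by
    rw [← Matrix.rank_eq_finrank_span_cols, hrank]
  obtain ⟨f, hf, -, hli⟩ := hspan
  have hf' : ∀ i, ∃ j, Z.col j = f i := fun i => hf i
  choose j hj using hf'
  refine ⟨fun l => j (Fin.cast hfr.symm l), ?_⟩
  have hli2 : LinearIndependent K (fun l : Fin ω => f (Fin.cast hfr.symm l)) :=
    hli.comp _ (Fin.cast_injective _)
  have hM : (fun l : Fin ω => f (Fin.cast hfr.symm l)) =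
      (Matrix.of fun i l => z i (j (Fin.cast hfr.symm l)))ᵀ.row := by
    funext l
    rw [← hj]
    rfl
  rw [hM, Matrix.linearIndependent_rows_iff_isUnit, Matrix.isUnit_transpose,
    Matrix.isUnit_iff_isUnit_det] at hli2
  exact hli2.ne_zero

/-- The rank of a matrix of integer polynomials at a point with coordinates in any field is at most
its rank at some real point. -/
theorem transfer {m n σ : Type} [Fintype m] [Fintype n] (P : Matrix m n (MvPolynomial σ ℤ))
    {K : Type} [Field K] (x : σ → K) :
    ∃ y : σ → ℝ, (P.map (MvPolynomial.aeval x)).rank ≤ (P.map (MvPolynomial.aeval y)).rank := by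
  classical
  set A : Matrix m n K := P.map (MvPolynomial.aeval x) with hA
  obtain ⟨f, hf, -, hli⟩ := Submodule.exists_fun_fin_finrank_span_eq K (Set.range A.row)
  have hfr : finrank K (Submodule.span K (Set.range A.row)) = A.rank :=
    (Matrix.rank_eq_finrank_span_row A).symm
  have hf' : ∀ i, ∃ j, A.row j = f i := fun i => hf i
  choose s hs using hf'
  have hli' : LinearIndependent K (fun i => A (s i)) := by
    have : (fun i => A (s i)) = f := funext fun i => hs i
    rw [this]; exact hli
  obtain ⟨g, hg⟩ := exists_minor _ hli'
  set D : MvPolynomial σ ℤ := (P.submatrix s g).det with hD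
  have h1 : MvPolynomial.aeval x D ≠ 0 := by
    have h2 : MvPolynomial.aeval x D = (Matrix.of fun i l => A (s i) (g l)).det := by
      rw [hD, AlgHom.map_det]
      rfl
    rw [h2]; exact hg
  have hD0 : D ≠ 0 := fun h => h1 (by rw [h, map_zero])
  obtain ⟨y, hy⟩ : ∃ y : σ → ℝ, MvPolynomial.aeval y D ≠ 0 := by
    by_contra hcon
    push Not at hcon
    apply hD0
    have h3 : MvPolynomial.map (Int.castRingHom ℝ) D = 0 := by
      apply MvPolynomial.funext
      intro y
      rw [map_zero, MvPolynomial.eval_map]
      exact hcon y
    exact MvPolynomial.map_injective _ Int.cast_injective (by rw [h3, map_zero])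
  refine ⟨y, ?_⟩
  set B : Matrix m n ℝ := P.map (MvPolynomial.aeval y) with hB
  have h4 : (Matrix.of fun i l => B (s i) (g l)).det ≠ 0 := by
    have h5 : MvPolynomial.aeval y D = (Matrix.of fun i l => B (s i) (g l)).det := by
      rw [hD, AlgHom.map_det]
      rfl
    rwa [h5] at hy
  have h6 : LinearIndependent ℝ (fun i => B (s i)) := by
    have h7 : LinearIndependent ℝ (Matrix.of fun i l => B (s i) (g l)).row := by
      rw [Matrix.linearIndependent_rows_iff_isUnit, Matrix.isUnit_iff_isUnit_det]
      exact isUnit_iff_ne_zero.2 h4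
    exact LinearIndependent.of_comp (LinearMap.funLeft ℝ ℝ g) h7
  have h8 : (B.submatrix s id).rank = A.rank := by
    have := LinearIndependent.rank_matrix (M := B.submatrix s id) h6
    rw [this, Fintype.card_fin, hfr]
  calc A.rank = (B.submatrix s id).rank := h8.symm
    _ ≤ B.rank := Matrix.rank_submatrix_le B s id

end Pool.Agent.Run7.h804.PV
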