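import Mathlib
import Pool.Agent.Run7.h804.PV.Field
import Pool.Agent.Run7.h804.PV.Tr

/-!
# The rank of the rigidity matrix of a circulant graph of prime order at a placement by
# roots of unity
-/

set_option autoImplicit false

namespace Pool.Agent.Run7.h804.PV

open Matrix Module

/-- The rigidity matrix of the graph on `ZMod p` with the edges `{v, v + s}`, `s ∈ S`, at the
placement `x`. -/
def cmat {R : Type} [Ring R] (p d : ℕ) (S : Finset ℕ) (x : ZMod p → Fin d → R) :
    Matrix (ZMod p × S) (ZMod p × Fin d) R :=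
  fun a b => if b.1 = a.1 + (a.2 : ℕ) then x (a.1 + (a.2 : ℕ)) b.2 - x a.1 b.2 else
    if b.1 = a.1 then x a.1 b.2 - x (a.1 + (a.2 : ℕ)) b.2 else 0

variable {K : Type} [Field K] {p N d : ℕ} [Fact p.Prime]

theorem cmat_mulVec (S : Finset ℕ) (hS : ∀ s ∈ S, (s : ZMod p) ≠ 0)
    (x : ZMod p → Fin d → K) (m : ZMod p × Fin d → K) (v : ZMod p) (s : S) :
    (cmat p d S x *ᵥ m) (v, s) =
      ∑ i, (x (v + (s : ℕ)) i - x v i) * (m (v + (s : ℕ), i) - m (v, i)) := by
  classical
  have hne : v + ((s : ℕ) : ZMod p) ≠ v := by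
    intro h
    exact hS s s.2 (by simpa using h)
  rw [Matrix.mulVec, dotProduct, Fintype.sum_prod_type]
  have h1 : ∀ w : ZMod p, ∑ i, cmat p d S x (v, s) (w, i) * m (w, i) =
      (if w = v + (s : ℕ) then ∑ i, (x (v + (s : ℕ)) i - x v i) * m (v + (s : ℕ), i) else 0) +
      (if w = v then - ∑ i, (x (v + (s : ℕ)) i - x v i) * m (v, i) else 0) := by
    intro w
    unfold cmat
    by_cases h : w = v + (s : ℕ)
    · rw [if_pos h, if_neg (by rw [h]; exact hne), add_zero]
      refine Finset.sum_congr rfl fun i _ => ?_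
      simp only [h, if_true]
    · by_cases h' : w = v
      · rw [if_neg h, if_pos h', zero_add, ← Finset.sum_neg_distrib]
        refine Finset.sum_congr rfl fun i _ => ?_
        simp only
        rw [if_neg h, if_pos h', h']
        ring
      · rw [if_neg h, if_neg h', add_zero]
        refine Finset.sum_eq_zero fun i _ => ?_
        simp only
        rw [if_neg h, if_neg h', zero_mul]
  rw [Finset.sum_congr rfl fun w _ => h1 w, Finset.sum_add_distrib, Finset.sum_ite_eq',
    Finset.sum_ite_eq']
  simp only [Finset.mem_univ, if_true]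
  rw [← sub_eq_add_neg, ← Finset.sum_sub_distrib]
  exact Finset.sum_congr rfl fun i _ => by ring

/-- the Fourier coefficients of `m`, shifted by the frequencies of the placement -/
noncomputable def four [NeZero p] (e : AddChar (ZMod p) K) (a : Fin d → ZMod p)
    (m : ZMod p × Fin d → K) (j : ZMod p) (i : Fin d) : K :=
  ∑ v : ZMod p, e ((a i - j) * v) * m (v, i)

theorem four_gen [NeZero p] (e : AddChar (ZMod p) K) (a : Fin d → ZMod p)
    (m : ZMod p × Fin d → K) (s : ZMod p) (j : ZMod p) :
    ∑ i, (e (a i * s) - 1) * (e ((j - a i) * s) - 1) * four e a m j i =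
      ∑ v : ZMod p, e (-(j * v)) *
        ∑ i, (e (a i * (v + s)) - e (a i * v)) * (m (v + s, i) - m (v, i)) := by
  have h1 : ∀ i, (e ((j - a i) * s) - 1) * four e a m j i =
      ∑ v : ZMod p, e ((a i - j) * v) * (m (v + s, i) - m (v, i)) := by
    intro i
    have h2 : e ((j - a i) * s) * four e a m j i =
        ∑ v : ZMod p, e ((a i - j) * v) * m (v + s, i) := by
      unfold four
      rw [Finset.mul_sum, ← Equiv.sum_comp (Equiv.addRight s)]
      refine Finset.sum_congr rfl fun v _ => ?_
      rw [Equiv.coe_addRight, ← mul_assoc, ← AddChar.map_add_eq_mul]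
      congr 2
      ring
    rw [sub_mul, one_mul, h2]
    unfold four
    rw [← Finset.sum_sub_distrib]
    exact Finset.sum_congr rfl fun v _ => by ring
  have h3 : ∀ i, (e (a i * s) - 1) * (e ((j - a i) * s) - 1) * four e a m j i =
      ∑ v : ZMod p, e (-(j * v)) *
        ((e (a i * (v + s)) - e (a i * v)) * (m (v + s, i) - m (v, i))) := by
    intro i
    rw [mul_assoc, h1, Finset.mul_sum]
    refine Finset.sum_congr rfl fun v _ => ?_
    have e1 : e ((a i - j) * v) = e (-(j * v)) * e (a i * v) := by
      rw [← AddChar.map_add_eq_mul]; congr 1; ring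
    have e2 : e (a i * (v + s)) = e (a i * v) * e (a i * s) := by
      rw [← AddChar.map_add_eq_mul]; congr 1; ring
    rw [e1, e2]
    ring
  rw [Finset.sum_congr rfl fun i _ => h3 i, Finset.sum_comm]
  refine Finset.sum_congr rfl fun v _ => ?_
  rw [← Finset.mul_sum]

theorem four_motion [NeZero p] (e : AddChar (ZMod p) K) (a : Fin d → ZMod p)
    (m : ZMod p × Fin d → K) (s : ZMod p)
    (h : ∀ v, ∑ i, (e (a i * (v + s)) - e (a i * v)) * (m (v + s, i) - m (v, i)) = 0)
    (j : ZMod p) :
    ∑ i, (e (a i * s) - 1) * (e ((j - a i) * s) - 1) * four e a m j i = 0 := by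
  rw [four_gen]
  exact Finset.sum_eq_zero fun v _ => by rw [h v, mul_zero]

theorem four_inj [NeZero p] (hp0 : (p : K) ≠ 0) (e : AddChar (ZMod p) K) (he : e.IsPrimitive)
    (a : Fin d → ZMod p) (m : ZMod p × Fin d → K) (h : ∀ j i, four e a m j i = 0) : m = 0 := by
  classical
  funext ⟨w, i⟩
  have h1 : ∑ j : ZMod p, e ((j - a i) * w) * four e a m j i = (p : K) * m (w, i) := by
    unfold four
    calc ∑ j : ZMod p, e ((j - a i) * w) * ∑ v : ZMod p, e ((a i - j) * v) * m (v, i)
        = ∑ j : ZMod p, ∑ v : ZMod p, e ((j - a i) * (w - v)) * m (v, i) := by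
          refine Finset.sum_congr rfl fun j _ => ?_
          rw [Finset.mul_sum]
          refine Finset.sum_congr rfl fun v _ => ?_
          rw [← mul_assoc, ← AddChar.map_add_eq_mul]
          congr 2
          ring
      _ = ∑ v : ZMod p, (∑ j : ZMod p, e ((j - a i) * (w - v))) * m (v, i) := by
          rw [Finset.sum_comm]
          refine Finset.sum_congr rfl fun v _ => ?_
          rw [Finset.sum_mul]
      _ = ∑ v : ZMod p, (if w - v = 0 then (p : K) else 0) * m (v, i) := by
          refine Finset.sum_congr rfl fun v _ => ?_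
          congr 1
          rw [← Equiv.sum_comp (Equiv.addRight (a i))]
          have h2 : ∀ j : ZMod p, e (((Equiv.addRight (a i)) j - a i) * (w - v)) =
              e (j * (w - v)) := by
            intro j
            rw [Equiv.coe_addRight]
            congr 2
            ring
          rw [Finset.sum_congr rfl fun j _ => h2 j, AddChar.sum_mulShift _ he, ZMod.card]
          push_cast
          rfl
      _ = (p : K) * m (w, i) := by
          rw [Finset.sum_eq_single w]
          · rw [sub_self, if_pos rfl]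
          · intro v _ hv
            rw [if_neg (sub_ne_zero.2 hv.symm), zero_mul]
          · intro hw
            exact absurd (Finset.mem_univ w) hw
  rw [Finset.sum_eq_zero (fun j _ => by rw [h j i, mul_zero])] at h1
  rcases mul_eq_zero.1 h1.symm with h2 | h2
  · exact absurd h2 hp0
  · exact h2

/-- **The kernel at a placement by roots of unity.** -/
theorem rank_cmat [NeZero p] (hpN : p = 2 * N + 1) (hp0 : (p : K) ≠ 0)
    (e : AddChar (ZMod p) K) (he : e.IsPrimitive) (hgood : Good N (e 1)) (a : Fin d → ZMod p)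
    (I : ZMod p → Finset (Fin d))
    (h0 : ∀ j, ∀ i ∈ I j, a i ≠ 0 ∧ a i ≠ j)
    (h1 : ∀ j, ∀ i ∈ I j, ∀ i' ∈ I j, i ≠ i' → a i ≠ a i' ∧ a i + a i' ≠ j)
    (S : Finset ℕ) (hS : ∀ s ∈ S, 1 ≤ s ∧ s ≤ N) (hcard : ∀ j, (I j).card ≤ S.card) :
    ∑ j, (I j).card ≤ (cmat p d S (fun v i => e (a i * v))).rank := by
  classical
  set A := cmat p d S (fun v i => e (a i * v)) with hA
  have hS0 : ∀ s ∈ S, (s : ZMod p) ≠ 0 := by
    intro s hs h2
    have h3 := (ZMod.natCast_eq_zero_iff s p).1 h2
    have h4 := Nat.le_of_dvd (by have := (hS s hs).1; omega) h3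
    have := (hS s hs).2
    omega
  have hrk := LinearMap.finrank_range_add_finrank_ker A.mulVecLin
  rw [Module.finrank_fintype_fun_eq_card] at hrk
  let Φ : LinearMap.ker A.mulVecLin →ₗ[K] ({x : ZMod p × Fin d // x.2 ∉ I x.1} → K) :=
    { toFun := fun m x => four e a m.1 x.1.1 x.1.2
      map_add' := fun m m' => by
        funext x
        simp only [four, Submodule.coe_add, Pi.add_apply]
        rw [← Finset.sum_add_distrib]
        exact Finset.sum_congr rfl fun v _ => by ring
      map_smul' := fun c m => by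
        funext x
        simp only [four, Submodule.coe_smul, Pi.smul_apply, smul_eq_mul, RingHom.id_apply]
        rw [Finset.mul_sum]
        exact Finset.sum_congr rfl fun v _ => by ring }
  have hinj : Function.Injective Φ := by
    rw [← LinearMap.ker_eq_bot, LinearMap.ker_eq_bot']
    rintro ⟨m, hm⟩ h2
    apply Subtype.ext
    show m = 0
    refine four_inj hp0 e he a m fun j => ?_
    have h3 : four e a m j = 0 := by
      refine block hpN e hgood a j (I j) (h0 j) (h1 j) S hS (hcard j) _ ?_ ?_
      · intro i hi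
        exact congrFun h2 ⟨(j, i), hi⟩
      · intro s hs
        refine four_motion e a m s (fun v => ?_) j
        have h4 : A *ᵥ m = 0 := by
          have := LinearMap.mem_ker.1 hm
          rwa [Matrix.mulVecLin_apply] at this
        have h5 := congrFun h4 (v, ⟨s, hs⟩)
        rw [hA, cmat_mulVec S hS0] at h5
        exact h5
    intro i
    exact congrFun h3 i
  have hdim := LinearMap.finrank_le_finrank_of_injective hinj
  rw [Module.finrank_fintype_fun_eq_card] at hdim
  have hc1 : Fintype.card {x : ZMod p × Fin d // x.2 ∉ I x.1} + ∑ j, (I j).card =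
      Fintype.card (ZMod p × Fin d) := by
    have h2 : ∑ j, (I j).card = Fintype.card {x : ZMod p × Fin d // x.2 ∈ I x.1} := by
      rw [Fintype.card_subtype, ← Finset.card_sigma]
      refine Finset.card_bij (fun x _ => (x.1, x.2)) ?_ ?_ ?_
      · intro x hx
        simpa using hx
      · rintro ⟨x1, x2⟩ _ ⟨y1, y2⟩ _ h3
        simpa using h3
      · rintro ⟨y1, y2⟩ hy
        exact ⟨⟨y1, y2⟩, by simpa using hy, rfl⟩
    rw [h2, add_comm]
    have := Fintype.card_subtype_compl (fun x : ZMod p × Fin d => x.2 ∈ I x.1)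
    have h4 := Fintype.card_subtype_le (fun x : ZMod p × Fin d => x.2 ∈ I x.1)
    rw [this]
    omega
  have hr : A.rank = finrank K (LinearMap.range A.mulVecLin) := rfl
  omega

end Pool.Agent.Run7.h804.PV
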