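import Mathlib
import Pool.Agent.Run7.h804.PV.Four
import Pool.Agent.H789R5.RF.Rank

/-!
# The generic rank of circulant graphs of prime order
-/

set_option autoImplicit false

namespace Pool.Agent.Run7.h804.PV

open Matrix Module Pool.Agent.H789R5 Pool.Agent.H283R2.DR

theorem rank_le_genRank {V : Type} [Fintype V] {d : ℕ} (G : SimpleGraph V)
    (p : V → Fin d → ℝ) : (rigidityMatrix G p).rank ≤ genRank d G := by
  unfold genRank
  refine le_csSup ⟨Fintype.card V * d, ?_⟩ ⟨p, rfl⟩
  rintro _ ⟨p', rfl⟩
  refine (Matrix.rank_le_card_width _).trans ?_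
  rw [Fintype.card_prod, Fintype.card_fin]

theorem genRank_le_edges {V : Type} [Fintype V] {d : ℕ} (G : SimpleGraph V) :
    genRank d G ≤ G.edgeSet.ncard := by
  classical
  unfold genRank
  refine csSup_le ⟨_, ⟨fun _ _ => 0, rfl⟩⟩ ?_
  rintro _ ⟨p', rfl⟩
  have : Fintype G.edgeSet := Fintype.ofFinite _
  refine (Matrix.rank_le_card_height _).trans ?_
  rw [Set.ncard_eq_toFinset_card', Set.toFinset_card]

/-- the connection set of a circulant graph -/
noncomputable def conn {p : ℕ} (N : ℕ) (G : SimpleGraph (ZMod p)) : Finset ℕ := by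
  classical exact (Finset.Icc 1 N).filter fun s => G.Adj 0 (s : ZMod p)

theorem mem_conn {p : ℕ} (N : ℕ) (G : SimpleGraph (ZMod p)) (s : ℕ) :
    s ∈ conn N G ↔ (1 ≤ s ∧ s ≤ N) ∧ G.Adj 0 (s : ZMod p) := by
  classical
  unfold conn
  rw [Finset.mem_filter, Finset.mem_Icc]

variable {p N d : ℕ} [Fact p.Prime] [NeZero p]

theorem genRank_ge (G : SimpleGraph (ZMod p)) (hpN : p = 2 * N + 1)
    (hG : ∀ u v t : ZMod p, G.Adj u v → G.Adj (u + t) (v + t)) (a : Fin d → ZMod p)
    (I : ZMod p → Finset (Fin d))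
    (h0 : ∀ j, ∀ i ∈ I j, a i ≠ 0 ∧ a i ≠ j)
    (h1 : ∀ j, ∀ i ∈ I j, ∀ i' ∈ I j, i ≠ i' → a i ≠ a i' ∧ a i + a i' ≠ j)
    (hcard : ∀ j, (I j).card ≤ (conn N G).card) :
    ∑ j, (I j).card ≤ genRank d G := by
  classical
  obtain ⟨K, _, _, ζ, hζ, hgood⟩ := exists_good p N hpN
  set e : AddChar (ZMod p) K := AddChar.zmodChar p hζ.pow_eq_one with he
  have heprim : e.IsPrimitive := AddChar.zmodChar_primitive_of_primitive_root p hζ
  have he1 : e 1 = ζ := by
    have := AddChar.zmodChar_apply' hζ.pow_eq_one 1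
    rw [Nat.cast_one, pow_one] at this
    exact this
  have hp0 : (p : K) ≠ 0 := Nat.cast_ne_zero.2 (NeZero.ne p)
  have hS : ∀ s ∈ conn N G, 1 ≤ s ∧ s ≤ N := fun s hs => ((mem_conn N G s).1 hs).1
  have h2 := rank_cmat hpN hp0 e heprim (by rw [he1]; exact hgood) a I h0 h1 (conn N G) hS hcard
  -- the transfer to the real numbers
  set P : Matrix (ZMod p × conn N G) (ZMod p × Fin d) (MvPolynomial (ZMod p × Fin d) ℤ) :=
    cmat p d (conn N G) (fun v i => MvPolynomial.X (v, i)) with hP
  obtain ⟨y, hy⟩ := transfer P (fun c => e (a c.2 * c.1))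
  have hmap : ∀ (L : Type) [Field L] (x : ZMod p × Fin d → L),
      P.map (MvPolynomial.aeval x) = cmat p d (conn N G) (fun v i => x (v, i)) := by
    intro L _ x
    ext r c
    rw [Matrix.map_apply, hP]
    unfold cmat
    split_ifs <;> simp
  rw [hmap, hmap] at hy
  refine h2.trans (hy.trans (le_trans ?_ (rank_le_genRank G (fun v i => y (v, i)))))
  have hadj : ∀ (v : ZMod p) (s : conn N G), G.Adj (v + (s : ℕ)) v := by
    intro v s
    have h3 := ((mem_conn N G s).1 s.2).2
    have h4 := (hG _ _ v h3).symm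
    rwa [zero_add, add_comm] at h4
  have hsub : cmat p d (conn N G) (fun v i => y (v, i)) =
      (rigidityMatrix G (fun v i => y (v, i))).submatrix
        (fun r : ZMod p × conn N G => ⟨s(r.1 + (r.2 : ℕ), r.1), hadj r.1 r.2⟩) id := by
    ext r c
    show cmat p d (conn N G) (fun v i => y (v, i)) r c =
      Pool.Agent.H789R5.row (fun v i => y (v, i)) (r.1 + (r.2 : ℕ)) r.1 c
    unfold cmat Pool.Agent.H789R5.row
    split_ifs <;> rfl
  rw [hsub]
  exact Matrix.rank_submatrix_le _ _ _

theorem edges_le (G : SimpleGraph (ZMod p)) (hpN : p = 2 * N + 1)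
    (hG : ∀ u v t : ZMod p, G.Adj u v → G.Adj (u + t) (v + t)) :
    G.edgeSet.ncard ≤ (conn N G).card * p := by
  classical
  have h1 : G.edgeSet ⊆ ((Finset.univ ×ˢ conn N G).image
      (fun r : ZMod p × ℕ => s(r.1 + (r.2 : ℕ), r.1)) : Finset (Sym2 (ZMod p))) := by
    intro x hx
    induction x using Sym2.ind with
    | _ u w =>
      rw [SimpleGraph.mem_edgeSet] at hx
      have hsz : ((sz (w - u) : ℕ) : ZMod p) = w - u ∨ ((sz (w - u) : ℕ) : ZMod p) = -(w - u) := by
        unfold sz
        rw [ZMod.natCast_natAbs_valMinAbs]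
        split_ifs
        · exact Or.inl rfl
        · exact Or.inr rfl
      have hle := sz_le hpN (w - u)
      have hpos : 1 ≤ sz (w - u) := by
        rw [Nat.one_le_iff_ne_zero]
        intro h0
        have h3 : w - u = 0 := by
          rcases hsz with h3 | h3
          · rw [← h3, h0, Nat.cast_zero]
          · rw [← neg_eq_zero, ← h3, h0, Nat.cast_zero]
        exact hx.ne (sub_eq_zero.1 h3).symm
      rw [Finset.mem_coe, Finset.mem_image]
      rcases hsz with h3 | h3
      · refine ⟨(u, sz (w - u)), ?_, ?_⟩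
        · rw [Finset.mem_product, mem_conn]
          refine ⟨Finset.mem_univ _, ⟨hpos, hle⟩, ?_⟩
          rw [h3]
          have := hG _ _ (-u) hx
          rwa [add_neg_cancel, ← sub_eq_add_neg] at this
        · simp only
          rw [h3, add_sub_cancel, Sym2.eq_swap]
      · refine ⟨(w, sz (w - u)), ?_, ?_⟩
        · rw [Finset.mem_product, mem_conn]
          refine ⟨Finset.mem_univ _, ⟨hpos, hle⟩, ?_⟩
          rw [h3]
          have := hG _ _ (-w) hx.symm
          rw [add_neg_cancel, ← sub_eq_add_neg] at this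
          rwa [neg_sub]
        · simp only
          rw [h3, neg_sub, add_sub_cancel]
  calc G.edgeSet.ncard ≤ ((Finset.univ ×ˢ conn N G).image
      (fun r : ZMod p × ℕ => s(r.1 + (r.2 : ℕ), r.1)) : Finset (Sym2 (ZMod p))).card := by
        rw [← Set.ncard_coe_finset]
        exact Set.ncard_le_ncard h1 (Finset.finite_toSet _)
    _ ≤ (Finset.univ ×ˢ conn N G : Finset (ZMod p × ℕ)).card := Finset.card_image_le
    _ = (conn N G).card * p := by
        rw [Finset.card_product, Finset.card_univ, ZMod.card, mul_comm]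

/-- the indices of the frequency `j` without coincidences -/
noncomputable def goodI (a : Fin d → ZMod p) (j : ZMod p) : Finset (Fin d) :=
  Finset.univ.filter fun i => a i ≠ j ∧ ∀ i' < i, a i + a i' ≠ j

omit [NeZero p] in
theorem goodI_h1 (a : Fin d → ZMod p) (ha : Function.Injective a) (j : ZMod p) :
    ∀ i ∈ goodI a j, ∀ i' ∈ goodI a j, i ≠ i' → a i ≠ a i' ∧ a i + a i' ≠ j := by
  intro i hi i' hi' hne
  refine ⟨fun h => hne (ha h), ?_⟩
  unfold goodI at hi hi'
  rw [Finset.mem_filter] at hi hi'
  rcases lt_or_gt_of_ne hne with h | h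
  · rw [add_comm]; exact hi'.2.2 i h
  · exact hi.2.2 i' h

theorem sum_goodI (a : Fin d → ZMod p) : d * p ≤ ∑ j, (goodI a j).card + d * (d + 1) / 2 := by
  classical
  have h1 : ∀ j, (goodI a j).card + ((goodI a j)ᶜ).card = d := by
    intro j
    rw [Finset.card_add_card_compl, Fintype.card_fin]
  have h2 : ∑ j, ((goodI a j)ᶜ).card ≤ d * (d + 1) / 2 := by
    have h3 : ∑ j, ((goodI a j)ᶜ).card =
        ∑ i : Fin d, (Finset.univ.filter fun j => i ∉ goodI a j).card := by
      have h4 : ∀ j, ((goodI a j)ᶜ).card = ∑ i : Fin d, if i ∉ goodI a j then 1 else 0 := by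
        intro j
        rw [← Finset.card_filter]
        congr 1
        ext i
        simp
      rw [Finset.sum_congr rfl fun j _ => h4 j, Finset.sum_comm]
      refine Finset.sum_congr rfl fun i _ => ?_
      rw [Finset.card_filter]
    rw [h3]
    have h5 : ∀ i : Fin d, (Finset.univ.filter fun j => i ∉ goodI a j).card ≤ (i : ℕ) + 1 := by
      intro i
      have h6 : (Finset.univ.filter fun j => i ∉ goodI a j) ⊆
          insert (a i) ((Finset.Iio i).image fun i' => a i + a i') := by
        intro j hj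
        rw [Finset.mem_filter] at hj
        rw [Finset.mem_insert, Finset.mem_image]
        by_contra hcon
        push Not at hcon
        apply hj.2
        unfold goodI
        rw [Finset.mem_filter]
        exact ⟨Finset.mem_univ _, fun h => hcon.1 h.symm, fun i' hi' =>
          hcon.2 i' (Finset.mem_Iio.2 hi')⟩
      refine (Finset.card_le_card h6).trans ((Finset.card_insert_le _ _).trans ?_)
      have := Finset.card_image_le (s := Finset.Iio i) (f := fun i' => a i + a i')
      rw [Fin.card_Iio] at this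
      omega
    calc _ ≤ ∑ i : Fin d, ((i : ℕ) + 1) := Finset.sum_le_sum fun i _ => h5 i
      _ = d * (d + 1) / 2 := by
        rw [Fin.sum_univ_eq_sum_range (fun i => i + 1) d, Finset.sum_add_distrib,
          Finset.sum_range_id, Finset.sum_const, Finset.card_range, smul_eq_mul, mul_one]
        rcases d with _ | d
        · rfl
        · rw [Nat.add_sub_cancel]
          have e1 : (d + 1) * (d + 1 + 1) = (d + 1) * d + 2 * (d + 1) := by ring
          rw [e1, Nat.add_mul_div_left _ _ (by norm_num)]
  have h7 : ∑ j, (goodI a j).card + ∑ j, ((goodI a j)ᶜ).card = d * p := by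
    rw [← Finset.sum_add_distrib, Finset.sum_congr rfl fun j _ => h1 j, Finset.sum_const,
      Finset.card_univ, ZMod.card, smul_eq_mul, mul_comm]
  omega

/-- rigidity of circulant graphs of degree at least `2 d` -/
theorem circ_rigid (G : SimpleGraph (ZMod p)) (hpN : p = 2 * N + 1)
    (hG : ∀ u v t : ZMod p, G.Adj u v → G.Adj (u + t) (v + t)) (hk : d ≤ (conn N G).card) :
    d * p ≤ genRank d G + d * (d + 1) / 2 := by
  classical
  have hkN : (conn N G).card ≤ N := by
    have h1 : conn N G ⊆ Finset.Icc 1 N := by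
      intro s hs
      exact Finset.mem_Icc.2 ((mem_conn N G s).1 hs).1
    have := Finset.card_le_card h1
    rw [Nat.card_Icc] at this
    omega
  set a : Fin d → ZMod p := fun i => (((i : ℕ) + 1 : ℕ) : ZMod p) with ha
  have hval : ∀ i : Fin d, (a i).val = (i : ℕ) + 1 := by
    intro i
    rw [ha]
    simp only
    rw [ZMod.val_natCast, Nat.mod_eq_of_lt]
    have := i.2
    omega
  have hinj : Function.Injective a := by
    intro i i' h
    have h1 := congrArg ZMod.val h
    rw [hval, hval] at h1
    exact Fin.ext (by omega)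
  have h1 := genRank_ge G hpN hG a (goodI a) (fun j i hi => by
      refine ⟨fun h => ?_, ?_⟩
      · have h1 := congrArg ZMod.val h
        rw [hval, ZMod.val_zero] at h1
        omega
      · unfold goodI at hi
        exact (Finset.mem_filter.1 hi).2.1) (fun j => goodI_h1 a hinj j)
    (fun j => by
      refine le_trans ?_ hk
      have := Finset.card_le_univ (goodI a j)
      rwa [Fintype.card_fin] at this)
  have h2 := sum_goodI a
  omega

/-- independence of circulant graphs of degree less than `2 d` -/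
theorem circ_indep (G : SimpleGraph (ZMod p)) (hpN : p = 2 * N + 1)
    (hG : ∀ u v t : ZMod p, G.Adj u v → G.Adj (u + t) (v + t)) (hk : (conn N G).card < d)
    (hp : 3 * 2 ^ d < 4 * p) : (conn N G).card * p ≤ genRank d G := by
  classical
  set a : Fin d → ZMod p := fun i => ((2 ^ (i : ℕ) : ℕ) : ZMod p) with ha
  have hbound : ∀ i : Fin d, 2 ^ (i : ℕ) < p ∧ ∀ i' < i, 2 ^ (i : ℕ) + 2 ^ (i' : ℕ) < p := by
    intro i
    have hi : (i : ℕ) + 1 ≤ d := i.2
    have h1 : 2 ^ ((i : ℕ) + 1) ≤ 2 ^ d := Nat.pow_le_pow_right (by norm_num) hi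
    rw [pow_succ] at h1
    refine ⟨by omega, fun i' hi' => ?_⟩
    have h2 : 2 ^ ((i' : ℕ) + 1) ≤ 2 ^ (i : ℕ) := Nat.pow_le_pow_right (by norm_num) hi'
    rw [pow_succ] at h2
    omega
  have hval : ∀ i : Fin d, (a i).val = 2 ^ (i : ℕ) := by
    intro i
    rw [ha]
    simp only
    rw [ZMod.val_natCast, Nat.mod_eq_of_lt (hbound i).1]
  have hinj : Function.Injective a := by
    intro i i' h
    have h1 := congrArg ZMod.val h
    rw [hval, hval] at h1
    exact Fin.ext (Nat.pow_right_injective le_rfl h1)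
  have hbad : ∀ j, ((goodI a j)ᶜ).card ≤ 1 := by
    intro j
    rw [Finset.card_le_one]
    have h2 : ∀ i ∈ (goodI a j)ᶜ, Nat.log 2 j.val = (i : ℕ) := by
      intro i hi
      have hpow : 1 ≤ 2 ^ (i : ℕ) := Nat.one_le_two_pow
      have h3 : j = a i ∨ ∃ i' < i, a i + a i' = j := by
        by_contra hcon
        push Not at hcon
        rw [Finset.mem_compl] at hi
        apply hi
        unfold goodI
        rw [Finset.mem_filter]
        exact ⟨Finset.mem_univ _, fun h => hcon.1 h.symm, hcon.2⟩
      rcases h3 with h3 | ⟨i', hi', h3⟩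
      · rw [h3, hval]
        exact Nat.log_pow (by norm_num) _
      · have h4 : j.val = 2 ^ (i : ℕ) + 2 ^ (i' : ℕ) := by
          have h5 : j = ((2 ^ (i : ℕ) + 2 ^ (i' : ℕ) : ℕ) : ZMod p) := by
            rw [← h3, ha]; push_cast; ring
          rw [h5, ZMod.val_natCast, Nat.mod_eq_of_lt ((hbound i).2 i' hi')]
        have h6 : 2 ^ (i' : ℕ) < 2 ^ (i : ℕ) := Nat.pow_lt_pow_right (by norm_num) hi'
        have hpow' : 1 ≤ 2 ^ (i' : ℕ) := Nat.one_le_two_pow
        rw [h4]
        refine (Nat.log_eq_iff (Or.inr ⟨by norm_num, by omega⟩)).2 ⟨by omega, ?_⟩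
        rw [pow_succ]
        omega
    intro i hi i' hi'
    exact Fin.ext ((h2 i hi).symm.trans (h2 i' hi'))
  have hsub : ∀ j, ∃ T ⊆ goodI a j, T.card = (conn N G).card := by
    intro j
    apply Finset.exists_subset_card_eq
    have h1 := Finset.card_add_card_compl (goodI a j)
    rw [Fintype.card_fin] at h1
    have := hbad j
    omega
  choose I hI1 hI2 using hsub
  have h1 := genRank_ge G hpN hG a I (fun j i hi => by
      refine ⟨fun h => ?_, ?_⟩
      · have h1 := congrArg ZMod.val h
        rw [hval, ZMod.val_zero] at h1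
        exact absurd h1 (by positivity)
      · have h3 := hI1 j hi
        unfold goodI at h3
        exact (Finset.mem_filter.1 h3).2.1)
    (fun j i hi i' hi' => goodI_h1 a hinj j i (hI1 j hi) i' (hI1 j hi'))
    (fun j => (hI2 j).le)
  rw [Finset.sum_congr rfl fun j _ => hI2 j, Finset.sum_const, Finset.card_univ, ZMod.card,
    smul_eq_mul, mul_comm] at h1
  exact h1

end Pool.Agent.Run7.h804.PV
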