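import Mathlib
import Pool.Agent.Run7.h804.PV.Circ

/-!
# Circulant graphs of prime order without a vertex
-/

set_option autoImplicit false

namespace Pool.Agent.Run7.h804.PV

open Matrix Module Pool.Agent.H789R5 Pool.Agent.H283R2.DR

section key

variable {K : Type} [Field K] {p N d : ℕ} [Fact p.Prime] [NeZero p]

open Polynomial in
/-- the two polynomials agree -/
theorem poly_eq (M M' : Fin d → K) (Y : Finset K) (hY : (1 : K) ∉ Y) (hYc : d ≤ Y.card)
    (h : ∀ y ∈ Y, ∑ i : Fin d, M i * (y - y ^ (d - (i : ℕ)) - y ^ ((i : ℕ) + 2) + y ^ (d + 1)) =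
      ∑ i : Fin d, M' i * (y - y ^ (d - 1 - (i : ℕ)) - y ^ ((i : ℕ) + 2) + y ^ d)) (x : K) :
    ∑ i : Fin d, M i * (x - x ^ (d - (i : ℕ)) - x ^ ((i : ℕ) + 2) + x ^ (d + 1)) =
      ∑ i : Fin d, M' i * (x - x ^ (d - 1 - (i : ℕ)) - x ^ ((i : ℕ) + 2) + x ^ d) := by
  classical
  set A : K[X] := ∑ i : Fin d, C (M i) * (X - X ^ (d - (i : ℕ)) - X ^ ((i : ℕ) + 2) + X ^ (d + 1))
    with hA
  set B : K[X] := ∑ i : Fin d, C (M' i) * (X - X ^ (d - 1 - (i : ℕ)) - X ^ ((i : ℕ) + 2) + X ^ d)
    with hB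
  have hAe : ∀ x, A.eval x =
      ∑ i : Fin d, M i * (x - x ^ (d - (i : ℕ)) - x ^ ((i : ℕ) + 2) + x ^ (d + 1)) := by
    intro x
    rw [hA, eval_finsetSum]
    exact Finset.sum_congr rfl fun i _ => by simp
  have hBe : ∀ x, B.eval x =
      ∑ i : Fin d, M' i * (x - x ^ (d - 1 - (i : ℕ)) - x ^ ((i : ℕ) + 2) + x ^ d) := by
    intro x
    rw [hB, eval_finsetSum]
    exact Finset.sum_congr rfl fun i _ => by simp
  have hA' : (derivative A).eval 1 = 0 := by
    rw [hA, derivative_sum, eval_finsetSum]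
    refine Finset.sum_eq_zero fun i _ => ?_
    have hi := i.2
    simp only [derivative_C_mul, derivative_add, derivative_sub, derivative_X, derivative_X_pow,
      eval_mul, eval_C, eval_add, eval_sub, eval_pow, eval_X, one_pow, mul_one, eval_one]
    rw [Nat.cast_sub (by omega)]
    push_cast
    ring
  have hB' : (derivative B).eval 1 = 0 := by
    rw [hB, derivative_sum, eval_finsetSum]
    refine Finset.sum_eq_zero fun i _ => ?_
    have hi := i.2
    simp only [derivative_C_mul, derivative_add, derivative_sub, derivative_X, derivative_X_pow,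
      eval_mul, eval_C, eval_add, eval_sub, eval_pow, eval_X, one_pow, mul_one, eval_one]
    rw [Nat.cast_sub (by omega), Nat.cast_sub (by omega)]
    push_cast
    ring
  have hdeg : (A - B).natDegree ≤ d + 1 := by
    refine (natDegree_sub_le _ _).trans (max_le ?_ ?_)
    · refine natDegree_sum_le_of_forall_le _ _ fun i _ => ?_
      have hi := i.2
      refine (natDegree_C_mul_le _ _).trans ?_
      refine (natDegree_add_le _ _).trans (max_le ?_ ?_)
      · refine (natDegree_sub_le _ _).trans (max_le ?_ ?_)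
        · refine (natDegree_sub_le _ _).trans (max_le ?_ ?_)
          · exact natDegree_X_le.trans (by omega)
          · exact (natDegree_X_pow_le _).trans (by omega)
        · exact (natDegree_X_pow_le _).trans (by omega)
      · exact (natDegree_X_pow_le _).trans (by omega)
    · refine natDegree_sum_le_of_forall_le _ _ fun i _ => ?_
      have hi := i.2
      refine (natDegree_C_mul_le _ _).trans ?_
      refine (natDegree_add_le _ _).trans (max_le ?_ ?_)
      · refine (natDegree_sub_le _ _).trans (max_le ?_ ?_)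
        · refine (natDegree_sub_le _ _).trans (max_le ?_ ?_)
          · exact natDegree_X_le.trans (by omega)
          · exact (natDegree_X_pow_le _).trans (by omega)
        · exact (natDegree_X_pow_le _).trans (by omega)
      · exact (natDegree_X_pow_le _).trans (by omega)
  have h0 : A - B = 0 := by
    by_contra hne
    have hle : (1 ::ₘ 1 ::ₘ Y.val) ≤ (A - B).roots := by
      rw [Multiset.le_iff_count]
      intro x
      rw [count_roots]
      by_cases hx1 : x = 1
      · subst hx1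
        rw [Multiset.count_cons_self, Multiset.count_cons_self,
          Multiset.count_eq_zero_of_notMem (by exact hY)]
        refine (Polynomial.one_lt_rootMultiplicity_iff_isRoot hne).2 ⟨?_, ?_⟩
        · rw [IsRoot, eval_sub, hAe, hBe]
          simp
        · rw [IsRoot, derivative_sub, eval_sub, hA', hB', sub_zero]
      · rw [Multiset.count_cons_of_ne hx1, Multiset.count_cons_of_ne hx1]
        by_cases hxY : x ∈ Y
        · rw [Multiset.count_eq_one_of_mem Y.nodup (by exact hxY)]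
          refine (rootMultiplicity_pos hne).2 ?_
          rw [IsRoot, eval_sub, hAe, hBe, h x hxY, sub_self]
        · rw [Multiset.count_eq_zero_of_notMem (by exact hxY)]
          exact Nat.zero_le _
    have h1 := Multiset.card_le_card hle
    rw [Multiset.card_cons, Multiset.card_cons, Finset.card_val] at h1
    have h2 := (A - B).card_roots'
    omega
  rw [← hAe, ← hBe, sub_eq_zero.1 h0]

/-- the reflection -/
theorem refl_zero (M M' : Fin d → K) (u y : K) (huy : u * y = 1) (hy1 : y ≠ 1)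
    (h : ∀ x : K, ∑ i : Fin d, M i * (x - x ^ (d - (i : ℕ)) - x ^ ((i : ℕ) + 2) + x ^ (d + 1)) =
      ∑ i : Fin d, M' i * (x - x ^ (d - 1 - (i : ℕ)) - x ^ ((i : ℕ) + 2) + x ^ d)) :
    ∑ i : Fin d, M i * (y - y ^ (d - (i : ℕ)) - y ^ ((i : ℕ) + 2) + y ^ (d + 1)) = 0 := by
  have hpow : ∀ n k : ℕ, k ≤ n → y ^ n * u ^ k = y ^ (n - k) := by
    intro n k hk
    have h1 : y ^ n = y ^ (n - k) * y ^ k := by rw [← pow_add, Nat.sub_add_cancel hk]
    rw [h1, mul_assoc, ← mul_pow, mul_comm y u, huy, one_pow, mul_one]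
  have h1 : ∑ i : Fin d, M i * (y - y ^ (d - (i : ℕ)) - y ^ ((i : ℕ) + 2) + y ^ (d + 1)) =
      y ^ (d + 2) *
      ∑ i : Fin d, M i * (u - u ^ (d - (i : ℕ)) - u ^ ((i : ℕ) + 2) + u ^ (d + 1)) := by
    rw [Finset.mul_sum]
    refine Finset.sum_congr rfl fun i _ => ?_
    have hi := i.2
    have e1 := hpow (d + 2) 1 (by omega)
    have e2 := hpow (d + 2) (d - (i : ℕ)) (by omega)
    have e3 := hpow (d + 2) ((i : ℕ) + 2) (by omega)
    have e4 := hpow (d + 2) (d + 1) (by omega)
    rw [show d + 2 - 1 = d + 1 by omega, pow_one] at e1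
    rw [show d + 2 - (d - (i : ℕ)) = (i : ℕ) + 2 by omega] at e2
    rw [show d + 2 - ((i : ℕ) + 2) = d - (i : ℕ) by omega] at e3
    rw [show d + 2 - (d + 1) = 1 by omega, pow_one] at e4
    rw [← e1, ← e2, ← e3]
    nth_rewrite 1 [← e4]
    ring
  have h2 : ∑ i : Fin d, M' i * (y - y ^ (d - 1 - (i : ℕ)) - y ^ ((i : ℕ) + 2) + y ^ d) =
      y ^ (d + 1) *
      ∑ i : Fin d, M' i * (u - u ^ (d - 1 - (i : ℕ)) - u ^ ((i : ℕ) + 2) + u ^ d) := by
    rw [Finset.mul_sum]
    refine Finset.sum_congr rfl fun i _ => ?_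
    have hi := i.2
    have e1 := hpow (d + 1) 1 (by omega)
    have e2 := hpow (d + 1) (d - 1 - (i : ℕ)) (by omega)
    have e3 := hpow (d + 1) ((i : ℕ) + 2) (by omega)
    have e4 := hpow (d + 1) d (by omega)
    rw [show d + 1 - 1 = d by omega, pow_one] at e1
    rw [show d + 1 - (d - 1 - (i : ℕ)) = (i : ℕ) + 2 by omega] at e2
    rw [show d + 1 - ((i : ℕ) + 2) = d - 1 - (i : ℕ) by omega] at e3
    rw [show d + 1 - d = 1 by omega, pow_one] at e4
    rw [← e1, ← e2, ← e3]
    nth_rewrite 1 [← e4]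
    ring
  have h3 : ∑ i : Fin d, M i * (y - y ^ (d - (i : ℕ)) - y ^ ((i : ℕ) + 2) + y ^ (d + 1)) =
      y * ∑ i : Fin d, M i * (y - y ^ (d - (i : ℕ)) - y ^ ((i : ℕ) + 2) + y ^ (d + 1)) := by
    conv_rhs => rw [h y, h2, ← h u]
    conv_lhs => rw [h1]
    ring
  have h4 : (1 - y) *
      ∑ i : Fin d, M i * (y - y ^ (d - (i : ℕ)) - y ^ ((i : ℕ) + 2) + y ^ (d + 1)) = 0 := by
    linear_combination h3
  rcases mul_eq_zero.1 h4 with h5 | h5
  · exact absurd (sub_eq_zero.1 h5).symm hy1
  · exact h5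

/-- If `m` satisfies all conditions except perhaps those of the edges `{- s, 0}`, `s ∈ S`, then it
also satisfies these. -/
theorem key_del (hpN : p = 2 * N + 1) (e : AddChar (ZMod p) K) (he : e.IsPrimitive)
    (S : Finset ℕ) (hS : ∀ s ∈ S, 1 ≤ s ∧ s ≤ N) (hcard : d ≤ S.card)
    (m : ZMod p × Fin d → K)
    (h : ∀ v : ZMod p, ∀ s ∈ S, v + (s : ZMod p) ≠ 0 →
      ∑ i : Fin d, (e ((((i : ℕ) + 1 : ℕ) : ZMod p) * (v + s)) - e ((((i : ℕ) + 1 : ℕ) : ZMod p) * v)) *
        (m (v + s, i) - m (v, i)) = 0) :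
    ∀ s ∈ S, ∑ i : Fin d, (e ((((i : ℕ) + 1 : ℕ) : ZMod p) * (-(s : ZMod p) + s)) -
      e ((((i : ℕ) + 1 : ℕ) : ZMod p) * (-(s : ZMod p)))) *
        (m (-(s : ZMod p) + s, i) - m (-(s : ZMod p), i)) = 0 := by
  classical
  rcases Nat.eq_zero_or_pos d with hd0 | hd0
  · subst hd0
    intro s _
    simp
  set a : Fin d → ZMod p := fun i => (((i : ℕ) + 1 : ℕ) : ZMod p) with ha
  set β : ℕ → K := fun s => ∑ i : Fin d, (e (a i * (-(s : ZMod p) + s)) -
      e (a i * (-(s : ZMod p)))) * (m (-(s : ZMod p) + s, i) - m (-(s : ZMod p), i)) with hβ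
  have hS0 : ∀ s ∈ S, (s : ZMod p) ≠ 0 := by
    intro s hs h2
    have h3 := (ZMod.natCast_eq_zero_iff s p).1 h2
    have h4 := Nat.le_of_dvd (by have := (hS s hs).1; omega) h3
    have := (hS s hs).2
    omega
  -- the Fourier coefficients
  have hF : ∀ s ∈ S, ∀ j : ZMod p,
      ∑ i, (e (a i * s) - 1) * (e ((j - a i) * s) - 1) * four e a m j i =
        e (j * s) * β s := by
    intro s hs j
    rw [four_gen, Finset.sum_eq_single (-(s : ZMod p))]
    · congr 2
      ring
    · intro v _ hv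
      rw [h v s hs (fun h2 => hv (eq_neg_of_add_eq_zero_left h2)), mul_zero]
    · intro h2
      exact absurd (Finset.mem_univ _) h2
  have hinv : ∀ t : ZMod p, e t * e (-t) = 1 := by
    intro t
    rw [← AddChar.map_add_eq_mul, add_neg_cancel, AddChar.map_zero_eq_one]
  have hpw : ∀ (n : ℕ) (t : ZMod p), e ((n : ZMod p) * t) = e t ^ n := by
    intro n t
    rw [← AddChar.map_nsmul_eq_pow, nsmul_eq_mul]
  set Y : Finset K := S.image (fun s : ℕ => e (-(s : ZMod p))) with hY
  have hY1 : (1 : K) ∉ Y := by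
    intro h1
    obtain ⟨s, hs, hs1⟩ := Finset.mem_image.1 h1
    have h2 := (he.zmod_char_eq_one_iff p _).1 hs1
    exact hS0 s hs (neg_eq_zero.1 h2)
  have hYc : d ≤ Y.card := by
    rw [hY, Finset.card_image_of_injOn]
    · exact hcard
    · intro s hs s' hs' hss
      simp only at hss
      have h2 : e (-(s : ZMod p) + s') = 1 := by
        rw [AddChar.map_add_eq_mul, hss, mul_comm]
        exact hinv _
      have h3 := (he.zmod_char_eq_one_iff p _).1 h2
      have h4 : (s : ZMod p) = (s' : ZMod p) := by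
        have := eq_neg_of_add_eq_zero_left h3
        exact neg_injective this
      have h5 := (ZMod.natCast_eq_natCast_iff' s s' p).1 h4
      have h6 := (hS s hs).2
      have h7 := (hS s' hs').2
      rwa [Nat.mod_eq_of_lt (by omega), Nat.mod_eq_of_lt (by omega)] at h5
  set M : Fin d → K := four e a m (d : ZMod p) with hM
  set M' : Fin d → K := four e a m ((d - 1 : ℕ) : ZMod p) with hM'
  have e1 : ∀ s ∈ S, e (-(s : ZMod p)) * β s =
      ∑ i : Fin d, M i * (e (-(s : ZMod p)) - e (-(s : ZMod p)) ^ (d - (i : ℕ)) -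
        e (-(s : ZMod p)) ^ ((i : ℕ) + 2) + e (-(s : ZMod p)) ^ (d + 1)) := by
    intro s hs
    have h1 := hF s hs (d : ZMod p)
    set u := e (s : ZMod p) with hu
    set y := e (-(s : ZMod p)) with hy
    have huy : u * y = 1 := hinv _
    have h2 : β s = y ^ d * (e ((d : ZMod p) * s) * β s) := by
      rw [hpw, ← mul_assoc, ← mul_pow, mul_comm y, huy, one_pow, one_mul]
    rw [h2, ← h1, Finset.mul_sum, Finset.mul_sum]
    refine Finset.sum_congr rfl fun i _ => ?_
    have hi := i.2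
    have h3 : e (a i * s) = u ^ ((i : ℕ) + 1) := by rw [ha, hpw]
    have h4 : e (((d : ZMod p) - a i) * s) = u ^ (d - ((i : ℕ) + 1)) := by
      have : (d : ZMod p) - a i = ((d - ((i : ℕ) + 1) : ℕ) : ZMod p) := by
        rw [ha, Nat.cast_sub (by omega)]
      rw [this, hpw]
    have hpow : ∀ n k : ℕ, k ≤ n → y ^ n * u ^ k = y ^ (n - k) := by
      intro n k hk
      have h1 : y ^ n = y ^ (n - k) * y ^ k := by rw [← pow_add, Nat.sub_add_cancel hk]
      rw [h1, mul_assoc, ← mul_pow, mul_comm y u, huy, one_pow, mul_one]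
    have h5 : y ^ (d - (i : ℕ)) = y ^ (d + 1) * u ^ ((i : ℕ) + 1) := by
      rw [hpow _ _ (by omega)]; congr 1; omega
    have h6 : y ^ ((i : ℕ) + 2) = y ^ (d + 1) * u ^ (d - ((i : ℕ) + 1)) := by
      rw [hpow _ _ (by omega)]; congr 1; omega
    have h7 : y = y ^ (d + 1) * (u ^ ((i : ℕ) + 1) * u ^ (d - ((i : ℕ) + 1))) := by
      rw [← pow_add, hpow _ _ (by omega)]
      have h8 : d + 1 - ((i : ℕ) + 1 + (d - ((i : ℕ) + 1))) = 1 := by omega
      rw [h8, pow_one]
    rw [h3, h4, h5, h6]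
    nth_rewrite 3 [h7]
    ring
  have e2 : ∀ s ∈ S, e (-(s : ZMod p)) * β s =
      ∑ i : Fin d, M' i * (e (-(s : ZMod p)) - e (-(s : ZMod p)) ^ (d - 1 - (i : ℕ)) -
        e (-(s : ZMod p)) ^ ((i : ℕ) + 2) + e (-(s : ZMod p)) ^ d) := by
    intro s hs
    have h1 := hF s hs ((d - 1 : ℕ) : ZMod p)
    set u := e (s : ZMod p) with hu
    set y := e (-(s : ZMod p)) with hy
    have huy : u * y = 1 := hinv _
    have h2 : y * β s = y ^ d * (e (((d - 1 : ℕ) : ZMod p) * s) * β s) := by
      rw [hpw, ← mul_assoc]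
      have h3 : y ^ d = y * y ^ (d - 1) := by
        rw [← pow_succ']; congr 1; omega
      rw [h3, mul_assoc y, ← mul_pow, mul_comm y u, huy, one_pow, mul_one]
    rw [h2, ← h1, Finset.mul_sum]
    refine Finset.sum_congr rfl fun i _ => ?_
    have hi := i.2
    have h3 : e (a i * s) = u ^ ((i : ℕ) + 1) := by rw [ha, hpw]
    have h4 : e ((((d - 1 : ℕ) : ZMod p) - a i) * s) = u ^ (d - 1) * y ^ ((i : ℕ) + 1) := by
      rw [sub_mul, sub_eq_add_neg, AddChar.map_add_eq_mul, hpw, ← mul_neg, ha, hpw]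
    have hpow : ∀ n k : ℕ, k ≤ n → y ^ n * u ^ k = y ^ (n - k) := by
      intro n k hk
      have h1 : y ^ n = y ^ (n - k) * y ^ k := by rw [← pow_add, Nat.sub_add_cancel hk]
      rw [h1, mul_assoc, ← mul_pow, mul_comm y u, huy, one_pow, mul_one]
    have h5 : y ^ (d - 1 - (i : ℕ)) = y ^ d * u ^ ((i : ℕ) + 1) := by
      rw [hpow _ _ (by omega)]; congr 1; omega
    have h8 : y ^ d * u ^ (d - 1) = y := by
      rw [hpow _ _ (by omega)]
      have h8 : d - (d - 1) = 1 := by omega
      rw [h8, pow_one]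
    have h9 : u ^ ((i : ℕ) + 1) * y ^ ((i : ℕ) + 1) = 1 := by rw [← mul_pow, huy, one_pow]
    rw [h3, h4, h5]
    have h10 : y ^ ((i : ℕ) + 2) = y * y ^ ((i : ℕ) + 1) := by rw [pow_succ' y ((i : ℕ) + 1)]
    rw [h10]
    linear_combination (four e a m (((d - 1 : ℕ) : ZMod p)) i * (u ^ ((i : ℕ) + 1) - 1) *
      y ^ ((i : ℕ) + 1)) * h8 + (four e a m (((d - 1 : ℕ) : ZMod p)) i * y) * h9
  have hkey := poly_eq M M' Y hY1 hYc (by
    intro y hy
    obtain ⟨s, hs, rfl⟩ := Finset.mem_image.1 hy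
    exact (e1 s hs).symm.trans (e2 s hs))
  intro s hs
  have h1 := refl_zero M M' (e (s : ZMod p)) (e (-(s : ZMod p))) (hinv _)
    (fun h2 => hY1 (Finset.mem_image.2 ⟨s, hs, h2⟩)) hkey
  rw [← e1 s hs] at h1
  rcases mul_eq_zero.1 h1 with h2 | h2
  · exfalso
    have := hinv (s : ZMod p)
    rw [h2, mul_zero] at this
    exact zero_ne_one this
  · exact h2

/-- The rank of the part of the matrix which belongs to the edges not at the vertex `0`. -/
theorem rank_del (hpN : p = 2 * N + 1) (hp0 : (p : K) ≠ 0)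
    (e : AddChar (ZMod p) K) (he : e.IsPrimitive) (hgood : Good N (e 1))
    (S : Finset ℕ) (hS : ∀ s ∈ S, 1 ≤ s ∧ s ≤ N) (hcard : S.card = d) :
    d * p ≤ ((cmat p d S (fun v i => e ((((i : ℕ) + 1 : ℕ) : ZMod p) * v))).submatrix
      (Subtype.val : {r : ZMod p × S // r.1 ≠ 0 ∧ r.1 + ((r.2 : ℕ) : ZMod p) ≠ 0} → _) id).rank +
      d + d * (d + 1) / 2 := by
  classical
  set a : Fin d → ZMod p := fun i => (((i : ℕ) + 1 : ℕ) : ZMod p) with ha
  have hdN : d ≤ N := by
    have h1 : S ⊆ Finset.Icc 1 N := fun s hs => Finset.mem_Icc.2 (hS s hs)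
    have := Finset.card_le_card h1
    rw [Nat.card_Icc] at this
    omega
  have hval : ∀ i : Fin d, (a i).val = (i : ℕ) + 1 := by
    intro i
    rw [ha]
    simp only
    rw [ZMod.val_natCast, Nat.mod_eq_of_lt]
    have := i.2
    omega
  have hinj : Function.Injective a := by
    intro i i' h
    have h1 := congrArg ZMod.val h
    rw [hval, hval] at h1
    exact Fin.ext (by omega)
  set A := cmat p d S (fun v i => e (a i * v)) with hA
  have hS0 : ∀ s ∈ S, (s : ZMod p) ≠ 0 := by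
    intro s hs h2
    have h3 := (ZMod.natCast_eq_zero_iff s p).1 h2
    have h4 := Nat.le_of_dvd (by have := (hS s hs).1; omega) h3
    have := (hS s hs).2
    omega
  have hrkA : ∑ j, (goodI a j).card ≤ A.rank := by
    refine rank_cmat hpN hp0 e he hgood a (goodI a) (fun j i hi => ⟨fun h => ?_, ?_⟩)
      (fun j => goodI_h1 a hinj j) S hS (fun j => ?_)
    · have h1 := congrArg ZMod.val h
      rw [hval, ZMod.val_zero] at h1
      omega
    · unfold goodI at hi
      exact (Finset.mem_filter.1 hi).2.1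
    · rw [hcard]
      have := Finset.card_le_univ (goodI a j)
      rwa [Fintype.card_fin] at this
  have hsum := sum_goodI a
  set B := A.submatrix
    (Subtype.val : {r : ZMod p × S // r.1 ≠ 0 ∧ r.1 + ((r.2 : ℕ) : ZMod p) ≠ 0} → _) id with hB
  have hZA := LinearMap.finrank_range_add_finrank_ker A.mulVecLin
  have hZB := LinearMap.finrank_range_add_finrank_ker B.mulVecLin
  rw [Module.finrank_fintype_fun_eq_card, Fintype.card_prod, ZMod.card, Fintype.card_fin] at hZA hZB
  let Θ : LinearMap.ker B.mulVecLin →ₗ[K] (S → K) :=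
    { toFun := fun m s => (A *ᵥ m.1) (0, s)
      map_add' := fun m m' => by
        funext s
        simp [Matrix.mulVec_add]
      map_smul' := fun c m => by
        funext s
        simp [Matrix.mulVec_smul] }
  have hΘ := LinearMap.finrank_range_add_finrank_ker Θ
  have hΘ1 : finrank K (LinearMap.range Θ) ≤ d := by
    refine (Submodule.finrank_le _).trans ?_
    rw [Module.finrank_fintype_fun_eq_card, Fintype.card_coe, hcard]
  have hΘ2 : finrank K (LinearMap.ker Θ) ≤ finrank K (LinearMap.ker A.mulVecLin) := by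
    rw [← Submodule.finrank_map_subtype_eq]
    refine Submodule.finrank_mono ?_
    rintro m ⟨⟨m', hm'⟩, h1, rfl⟩
    rw [LinearMap.mem_ker, Matrix.mulVecLin_apply]
    have h2 : ∀ (v : ZMod p) (s : S), v + ((s : ℕ) : ZMod p) ≠ 0 → (A *ᵥ m') (v, s) = 0 := by
      intro v s hvs
      by_cases hv : v = 0
      · subst hv
        have h3 := LinearMap.mem_ker.1 h1
        exact congrFun h3 s
      · have h3 := LinearMap.mem_ker.1 hm'
        rw [Matrix.mulVecLin_apply] at h3
        exact congrFun h3 ⟨(v, s), hv, hvs⟩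
    have h4 := key_del hpN e he S hS hcard.ge m' (by
      intro v s hs hvs
      have h5 := h2 v ⟨s, hs⟩ hvs
      rw [hA, cmat_mulVec S hS0] at h5
      exact h5)
    funext ⟨v, s⟩
    by_cases hvs : v + ((s : ℕ) : ZMod p) = 0
    · have h5 := h4 s s.2
      have h6 : v = -((s : ℕ) : ZMod p) := eq_neg_of_add_eq_zero_left hvs
      show (A *ᵥ m') (v, s) = 0
      rw [hA, cmat_mulVec S hS0, h6]
      exact h5
    · exact h2 v s hvs
  have hrA : A.rank = finrank K (LinearMap.range A.mulVecLin) := rfl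
  have hrB : B.rank = finrank K (LinearMap.range B.mulVecLin) := rfl
  have hcomm : p * d = d * p := mul_comm _ _
  omega

end key

section real

variable {p N d : ℕ} [Fact p.Prime] [NeZero p]

theorem circ_del (H : SimpleGraph (ZMod p)) (hpN : p = 2 * N + 1)
    (hH : ∀ u v t : ZMod p, H.Adj u v → H.Adj (u + t) (v + t)) (hk : d ≤ (conn N H).card) :
    GenRigid d (H.induce ({0}ᶜ : Set (ZMod p))) := by
  classical
  obtain ⟨S, hSsub, hScard⟩ := Finset.exists_subset_card_eq hk
  have hS : ∀ s ∈ S, 1 ≤ s ∧ s ≤ N := fun s hs => ((mem_conn N H s).1 (hSsub hs)).1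
  have hdN : d ≤ N := by
    have h1 : S ⊆ Finset.Icc 1 N := fun s hs => Finset.mem_Icc.2 (hS s hs)
    have := Finset.card_le_card h1
    rw [Nat.card_Icc] at this
    omega
  obtain ⟨K, _, _, ζ, hζ, hgood⟩ := exists_good p N hpN
  set e : AddChar (ZMod p) K := AddChar.zmodChar p hζ.pow_eq_one with he
  have heprim : e.IsPrimitive := AddChar.zmodChar_primitive_of_primitive_root p hζ
  have he1 : e 1 = ζ := by
    have := AddChar.zmodChar_apply' hζ.pow_eq_one 1
    rw [Nat.cast_one, pow_one] at this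
    exact this
  have hp0 : (p : K) ≠ 0 := Nat.cast_ne_zero.2 (NeZero.ne p)
  have h2 := rank_del hpN hp0 e heprim (by rw [he1]; exact hgood) S hS hScard
  set P : Matrix {r : ZMod p × S // r.1 ≠ 0 ∧ r.1 + ((r.2 : ℕ) : ZMod p) ≠ 0} (ZMod p × Fin d)
      (MvPolynomial (ZMod p × Fin d) ℤ) :=
    (cmat p d S (fun v i => MvPolynomial.X (v, i))).submatrix Subtype.val id with hP
  obtain ⟨y, hy⟩ := transfer P (fun c => e ((((c.2 : ℕ) + 1 : ℕ) : ZMod p) * c.1))
  have hmap : ∀ (L : Type) [Field L] (x : ZMod p × Fin d → L),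
      P.map (MvPolynomial.aeval x) = (cmat p d S (fun v i => x (v, i))).submatrix
        (Subtype.val : {r : ZMod p × S // r.1 ≠ 0 ∧ r.1 + ((r.2 : ℕ) : ZMod p) ≠ 0} → _) id := by
    intro L _ x
    ext r c
    rw [Matrix.map_apply, hP, Matrix.submatrix_apply, Matrix.submatrix_apply]
    unfold cmat
    split_ifs <;> simp
  rw [hmap, hmap] at hy
  have hcardW : Fintype.card ({0}ᶜ : Set (ZMod p)) = p - 1 := by
    rw [Fintype.card_compl_set, ZMod.card, Set.card_singleton]
  have hadj : ∀ r : {r : ZMod p × S // r.1 ≠ 0 ∧ r.1 + ((r.2 : ℕ) : ZMod p) ≠ 0},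
      (H.induce ({0}ᶜ : Set (ZMod p))).Adj
        ⟨r.1.1 + ((r.1.2 : ℕ) : ZMod p), r.2.2⟩ ⟨r.1.1, r.2.1⟩ := by
    rintro ⟨⟨v, s⟩, hr⟩
    have h3 := ((mem_conn N H s).1 (hSsub s.2)).2
    have h4 := (hH _ _ v h3).symm
    rw [zero_add, add_comm] at h4
    exact h4
  set R := (rigidityMatrix (H.induce ({0}ᶜ : Set (ZMod p)))
      (fun v i => y ((v : ZMod p), i))).submatrix
      (fun r : {r : ZMod p × S // r.1 ≠ 0 ∧ r.1 + ((r.2 : ℕ) : ZMod p) ≠ 0} =>
        ⟨s(⟨r.1.1 + ((r.1.2 : ℕ) : ZMod p), r.2.2⟩, ⟨r.1.1, r.2.1⟩), hadj r⟩) id with hR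
  set C : Matrix (({0}ᶜ : Set (ZMod p)) × Fin d) (ZMod p × Fin d) ℝ :=
    fun c c' => if (c.1 : ZMod p) = c'.1 ∧ c.2 = c'.2 then 1 else 0 with hC
  have hprod : (cmat p d S (fun v i => y (v, i))).submatrix
      (Subtype.val : {r : ZMod p × S // r.1 ≠ 0 ∧ r.1 + ((r.2 : ℕ) : ZMod p) ≠ 0} → _) id =
      R * C := by
    ext r c
    rw [Matrix.mul_apply]
    obtain ⟨⟨v, s⟩, hr⟩ := r
    obtain ⟨w, i⟩ := c
    by_cases hw : w = 0
    · rw [Finset.sum_eq_zero]
      · rw [Matrix.submatrix_apply]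
        unfold cmat
        simp only [id]
        rw [if_neg (by rw [hw]; exact fun h => hr.2 h.symm),
          if_neg (by rw [hw]; exact fun h => hr.1 h.symm)]
      · intro c _
        rw [hC]
        simp only
        rw [if_neg, mul_zero]
        rintro ⟨h3, _⟩
        exact c.1.2 (by rw [h3, hw]; rfl)
    · rw [Finset.sum_eq_single (⟨w, hw⟩, i)]
      · rw [hC, hR]
        simp only [and_self, if_true, mul_one]
        rw [Matrix.submatrix_apply]
        show cmat p d S (fun v i => y (v, i)) (v, s) (w, i) =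
          Pool.Agent.H789R5.row (fun v : ({0}ᶜ : Set (ZMod p)) => fun i => y ((v : ZMod p), i))
            ⟨v + ((s : ℕ) : ZMod p), hr.2⟩ ⟨v, hr.1⟩ (⟨w, hw⟩, i)
        unfold cmat Pool.Agent.H789R5.row
        simp only
        by_cases h3 : w = v + ((s : ℕ) : ZMod p)
        · rw [if_pos h3, if_pos (Subtype.ext h3)]
        · rw [if_neg h3, if_neg (fun h => h3 (congrArg Subtype.val h))]
          by_cases h4 : w = v
          · rw [if_pos h4, if_pos (Subtype.ext h4)]
          · rw [if_neg h4, if_neg (fun h => h4 (congrArg Subtype.val h))]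
      · rintro ⟨⟨w', hw'⟩, i'⟩ _ hne
        rw [hC]
        simp only
        rw [if_neg, mul_zero]
        rintro ⟨h3, h4⟩
        apply hne
        subst h3 h4
        rfl
      · intro h3
        exact absurd (Finset.mem_univ _) h3
  have h5 : ((cmat p d S (fun v i => y (v, i))).submatrix
      (Subtype.val : {r : ZMod p × S // r.1 ≠ 0 ∧ r.1 + ((r.2 : ℕ) : ZMod p) ≠ 0} → _) id).rank ≤
      genRank d (H.induce ({0}ᶜ : Set (ZMod p))) := by
    rw [hprod]
    exact (Matrix.rank_mul_le_left _ _).trans ((Matrix.rank_submatrix_le _ _ _).trans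
      (rank_le_genRank _ _))
  have h6 : d ≤ Fintype.card ({0}ᶜ : Set (ZMod p)) := by rw [hcardW]; omega
  obtain ⟨pl, hpl⟩ := exists_mg ({0}ᶜ : Set (ZMod p)) d
  rw [genRigid_iff hpl h6]
  have h9 : d * p ≤ genRank d (H.induce ({0}ᶜ : Set (ZMod p))) + d + d * (d + 1) / 2 :=
    h2.trans (Nat.add_le_add_right (Nat.add_le_add_right (hy.trans h5) _) _)
  have h7 := genRank_add hpl (H.induce ({0}ᶜ : Set (ZMod p)))
  rw [hcardW] at h7
  have h8 : d * (p - 1) + d = d * p := by
    obtain ⟨n, hn⟩ : ∃ n, p = n + 1 := ⟨p - 1, by omega⟩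
    rw [hn, Nat.add_sub_cancel]
    ring
  omega

end real

end Pool.Agent.Run7.h804.PV
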