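import Mathlib
import Pool.Agent.Run7.h804.PV.Del

/-!
# Vertex-transitive graphs of prime order
-/

set_option autoImplicit false

namespace Pool.Agent.Run7.h804.PV

open Matrix Module Pool.Agent.H789R5 Pool.Agent.H283R2.DR

theorem genRank_iso_le {V W : Type} [Fintype V] [Fintype W] {d : ℕ} {G : SimpleGraph V}
    {H : SimpleGraph W} (φ : G ≃g H) : genRank d G ≤ genRank d H := by
  conv_lhs => unfold genRank
  refine csSup_le ⟨_, ⟨fun _ _ => 0, rfl⟩⟩ ?_
  rintro _ ⟨p, rfl⟩
  simp only
  refine le_trans ?_ (rank_le_genRank H (fun w => p (φ.symm w)))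
  have h : rigidityMatrix G p = (rigidityMatrix H (fun w => p (φ.symm w))).submatrix
      (fun e => φ.mapEdgeSet e) (fun c => (φ c.1, c.2)) := by
    ext e c
    obtain ⟨e, he⟩ := e
    induction e using Sym2.ind with
    | _ u v =>
      show Pool.Agent.H789R5.row p u v c =
        Pool.Agent.H789R5.row (fun w => p (φ.symm w)) (φ u) (φ v) (φ c.1, c.2)
      unfold Pool.Agent.H789R5.row
      simp only [RelIso.symm_apply_apply]
      by_cases h1 : c.1 = u
      · rw [if_pos h1, if_pos (congrArg φ h1)]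
      · rw [if_neg h1, if_neg (fun h => h1 (φ.injective h))]
        by_cases h2 : c.1 = v
        · rw [if_pos h2, if_pos (congrArg φ h2)]
        · rw [if_neg h2, if_neg (fun h => h2 (φ.injective h))]
  rw [h]
  exact Matrix.rank_submatrix_le _ _ _

theorem genRank_iso {V W : Type} [Fintype V] [Fintype W] {d : ℕ} {G : SimpleGraph V}
    {H : SimpleGraph W} (φ : G ≃g H) : genRank d G = genRank d H :=
  le_antisymm (genRank_iso_le φ) (genRank_iso_le φ.symm)

theorem ncard_iso {V W : Type} {G : SimpleGraph V} {H : SimpleGraph W} (φ : G ≃g H) :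
    G.edgeSet.ncard = H.edgeSet.ncard :=
  Nat.card_congr φ.mapEdgeSet

theorem genRank_upper {V : Type} [Fintype V] {d : ℕ} (G : SimpleGraph V)
    (hd : d ≤ Fintype.card V) : genRank d G + d * (d + 1) / 2 ≤ d * Fintype.card V := by
  obtain ⟨p, hp⟩ := exists_mg V d
  rw [← genRank_add hp G]
  have h1 : finrank ℝ (LinearMap.range (TA.triv p)) = d * (d + 1) / 2 := by
    rw [LinearMap.finrank_range_of_inj (triv_inj hp hd), finrank_triv]
  have h2 : finrank ℝ (LinearMap.range (TA.triv p)) ≤ mo G p :=
    Submodule.finrank_mono (TA.range_triv_le G p)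
  omega

theorem genRigid_iff_rank {V : Type} [Fintype V] {d : ℕ} (G : SimpleGraph V)
    (hd : d ≤ Fintype.card V) :
    GenRigid d G ↔ d * Fintype.card V ≤ genRank d G + d * (d + 1) / 2 := by
  obtain ⟨p, hp⟩ := exists_mg V d
  rw [genRigid_iff hp hd]
  have := genRank_add hp G
  omega

/-- A vertex-transitive graph with a prime number `p` of vertices is a circulant graph. -/
theorem exists_circulant {V : Type} [Fintype V] {p : ℕ} [Fact p.Prime] [NeZero p]
    (hV : Fintype.card V = p) (G : SimpleGraph V) (hG : ∀ u v : V, ∃ f : G ≃g G, f u = v) :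
    ∃ H : SimpleGraph (ZMod p), (∀ u v t : ZMod p, H.Adj u v → H.Adj (u + t) (v + t)) ∧
      Nonempty (G ≃g H) := by
  classical
  have hp : p.Prime := Fact.out
  let A : Subgroup (Equiv.Perm V) :=
    { carrier := {σ | ∀ u v, G.Adj (σ u) (σ v) ↔ G.Adj u v}
      mul_mem' := fun {σ τ} hσ hτ u v => by
        rw [Equiv.Perm.mul_apply, Equiv.Perm.mul_apply, hσ, hτ]
      one_mem' := fun u v => Iff.rfl
      inv_mem' := fun {σ} hσ u v => by
        have h1 := hσ (σ⁻¹ u) (σ⁻¹ v)
        have h2 : ∀ w, σ (σ⁻¹ w) = w := fun w => σ.apply_symm_apply w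
        rw [h2, h2] at h1
        exact h1.symm }
  have hA : ∀ σ : Equiv.Perm V, σ ∈ A ↔ ∀ u v, G.Adj (σ u) (σ v) ↔ G.Adj u v :=
    fun σ => Iff.rfl
  have hne : Nonempty V := Fintype.card_pos_iff.1 (by rw [hV]; exact hp.pos)
  obtain ⟨v0⟩ := hne
  have horb : MulAction.orbit A v0 = Set.univ := by
    ext v
    simp only [Set.mem_univ, iff_true]
    obtain ⟨f, hf⟩ := hG v0 v
    exact ⟨⟨f.toEquiv, (hA _).2 fun u w => f.map_adj_iff⟩, hf⟩
  have hdvd : p ∣ Nat.card A := by
    have h1 := MulAction.card_orbit_mul_card_stabilizer_eq_card_group A v0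
    have h2 : Fintype.card (MulAction.orbit A v0) = p := by
      rw [← hV]
      exact (Set.toFinset_card _).symm.trans (by simp [horb])
    rw [Nat.card_eq_fintype_card, ← h1, h2]
    exact dvd_mul_right _ _
  obtain ⟨x, hx⟩ := exists_prime_orderOf_dvd_card' p hdvd
  set σ : Equiv.Perm V := (x : Equiv.Perm V) with hσ
  have hord : orderOf σ = p := by rw [hσ, Subgroup.orderOf_coe, hx]
  have hcyc : σ.IsCycle :=
    Equiv.Perm.isCycle_of_prime_order'' (by rw [hV]; exact hp) (by rw [hord, hV])
  have hsupp : σ.support = Finset.univ := by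
    apply Finset.eq_univ_of_card
    rw [← hcyc.orderOf, hord, hV]
  have hmv : ∀ v, σ v ≠ v := fun v => Equiv.Perm.mem_support.1 (by rw [hsupp]; exact Finset.mem_univ v)
  set ψ : ZMod p → V := fun t => (σ ^ t.val) v0 with hψ
  have hσp : σ ^ p = 1 := by rw [← hord]; exact pow_orderOf_eq_one σ
  have hadd : ∀ t s : ZMod p, ψ (t + s) = (σ ^ s.val) (ψ t) := by
    intro t s
    rw [hψ]
    simp only
    rw [← Equiv.Perm.mul_apply, ← pow_add, ZMod.val_add, ← pow_eq_pow_mod _ hσp, add_comm]
  have hsurj : Function.Surjective ψ := by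
    intro v
    obtain ⟨i, hi⟩ := hcyc.exists_pow_eq (hmv v0) (hmv v)
    refine ⟨(i : ZMod p), ?_⟩
    rw [hψ]
    simp only
    rw [ZMod.val_natCast, ← pow_eq_pow_mod _ hσp, hi]
  have hbij : Function.Bijective ψ :=
    (Fintype.bijective_iff_surjective_and_card ψ).2 ⟨hsurj, by rw [ZMod.card, hV]⟩
  have hpow : ∀ n : ℕ, σ ^ n ∈ A := fun n => A.pow_mem x.2 n
  refine ⟨G.comap ψ, ?_, ⟨?_⟩⟩
  · intro u v t h
    rw [SimpleGraph.comap_adj] at h ⊢
    rw [hadd, hadd]
    exact ((hA _).1 (hpow _) _ _).2 h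
  · exact RelIso.symm ⟨Equiv.ofBijective ψ hbij, fun {u v} => Iff.rfl⟩

theorem four_le (d : ℕ) : 4 * d ≤ 3 * 2 ^ d := by
  induction d with
  | zero => simp
  | succ n ih =>
    rcases n with _ | n
    · norm_num
    · have : 2 ≤ 2 ^ (n + 1) := by
        calc 2 = 2 ^ 1 := by norm_num
          _ ≤ 2 ^ (n + 1) := Nat.pow_le_pow_right (by norm_num) (by omega)
      rw [pow_succ]
      omega

/-- generic rigidity passes to graphs with more edges -/
theorem genRigid_hom {V W : Type} {d : ℕ} {G : SimpleGraph V} {H : SimpleGraph W} (φ : V ≃ W)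
    (h : ∀ u v, G.Adj u v → H.Adj (φ u) (φ v)) (hG : GenRigid d G) : GenRigid d H := by
  obtain ⟨p, hp⟩ := hG
  refine ⟨fun w => p (φ.symm w), fun q hq => ?_⟩
  obtain ⟨A, b, hA, hb⟩ := hp (fun v => q (φ v)) (fun u v huv => by
    have := hq _ _ (h u v huv)
    simpa using this)
  refine ⟨A, b, hA, fun w => ?_⟩
  have := hb (φ.symm w)
  simpa using this

section robust

variable {p N d : ℕ} [Fact p.Prime] [NeZero p]

omit [NeZero p] in
theorem sz_neg (t : ZMod p) : sz (-t) = sz t := (sz_eq _ _).2 (Or.inr rfl)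

/-- the graph without the edges of some lengths -/
def thin (H : SimpleGraph (ZMod p)) (bad : Finset ℕ) : SimpleGraph (ZMod p) where
  Adj a b := H.Adj a b ∧ sz (a - b) ∉ bad
  symm := ⟨fun a b h => ⟨h.1.symm, by
    have : sz (b - a) = sz (a - b) := by rw [← sz_neg (a - b), neg_sub]
    rw [this]; exact h.2⟩⟩
  loopless := ⟨fun a h => H.irrefl h.1⟩

theorem conn_thin (hpN : p = 2 * N + 1) (H : SimpleGraph (ZMod p)) (bad : Finset ℕ) :
    (conn N H).card ≤ (conn N (thin H bad)).card + bad.card := by
  classical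
  have h1 : conn N H \ bad ⊆ conn N (thin H bad) := by
    intro s hs
    rw [Finset.mem_sdiff, mem_conn] at hs
    rw [mem_conn]
    refine ⟨hs.1.1, hs.1.2, ?_⟩
    have h2 : sz (0 - (s : ZMod p)) = s := by
      rw [zero_sub, sz_neg]
      unfold sz
      rw [ZMod.valMinAbs_natCast_of_le_half (by have := hs.1.1.2; omega), Int.natAbs_natCast]
    rw [h2]
    exact hs.2
  have h2 := Finset.card_le_card h1
  have h3 := Finset.le_card_sdiff bad (conn N H)
  omega

end robust

/-- the main theorem -/
theorem main {V : Type} [Fintype V] (hV : (Fintype.card V).Prime) (h3 : 3 ≤ Fintype.card V)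
    (G : SimpleGraph V) (hG : ∀ u v : V, ∃ f : G ≃g G, f u = v) (d : ℕ) :
    (∀ F : Finset (Sym2 V), (d + F.card) * Fintype.card V ≤ G.edgeSet.ncard →
      GenRigid d (G.deleteEdges F) ∧
      ∀ v : V, GenRigid d ((G.deleteEdges F).induce ({v}ᶜ : Set V))) ∧
    (3 * 2 ^ d < 4 * Fintype.card V →
      genRank d G = min G.edgeSet.ncard (d * Fintype.card V - d * (d + 1) / 2) ∧
      (GenRigid d G ↔ d * Fintype.card V ≤ G.edgeSet.ncard + d * (d + 1) / 2)) := by
  classical
  obtain ⟨p, hp⟩ : ∃ p, Fintype.card V = p := ⟨_, rfl⟩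
  rw [hp] at hV h3 ⊢
  have : Fact p.Prime := ⟨hV⟩
  have : NeZero p := ⟨hV.ne_zero⟩
  obtain ⟨N, hN⟩ : ∃ N, p = 2 * N + 1 := by
    rcases hV.eq_two_or_odd' with h | ⟨N, hN⟩
    · omega
    · exact ⟨N, hN⟩
  obtain ⟨H, hH, ⟨φ⟩⟩ := exists_circulant hp G hG
  have hr : genRank d G = genRank d H := genRank_iso φ
  have hE : G.edgeSet.ncard = H.edgeSet.ncard := ncard_iso φ
  have hEle := edges_le H hN hH
  constructor
  · intro F hF
    set len : Sym2 V → ℕ := Sym2.lift ⟨fun u w => sz (φ u - φ w), fun u w => by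
      show sz (φ u - φ w) = sz (φ w - φ u)
      rw [← sz_neg (φ u - φ w), neg_sub]⟩ with hlen
    set bad : Finset ℕ := F.image len with hbad
    have hk : d ≤ (conn N (thin H bad)).card := by
      have h1 : (d + F.card) * p ≤ (conn N H).card * p := by
        rw [hE] at hF
        exact hF.trans hEle
      have h2 := Nat.le_of_mul_le_mul_right h1 hV.pos
      have h4 := conn_thin hN H bad
      have h5 : bad.card ≤ F.card := Finset.card_image_le
      omega
    have hH' : ∀ u v t : ZMod p, (thin H bad).Adj u v → (thin H bad).Adj (u + t) (v + t) := by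
      intro u v t h
      refine ⟨hH u v t h.1, ?_⟩
      rw [add_sub_add_right_eq_sub]
      exact h.2
    have hkN : (conn N (thin H bad)).card ≤ N := by
      have h1 : conn N (thin H bad) ⊆ Finset.Icc 1 N := by
        intro s hs
        exact Finset.mem_Icc.2 ((mem_conn N _ s).1 hs).1
      have := Finset.card_le_card h1
      rw [Nat.card_Icc] at this
      omega
    have hadj : ∀ a b : ZMod p, (thin H bad).Adj a b →
        (G.deleteEdges F).Adj (φ.symm a) (φ.symm b) := by
      intro a b h
      rw [SimpleGraph.deleteEdges_adj]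
      refine ⟨φ.symm.map_adj_iff.2 h.1, fun h5 => h.2 ?_⟩
      rw [hbad, Finset.mem_image]
      refine ⟨s(φ.symm a, φ.symm b), h5, ?_⟩
      rw [hlen]
      simp
    constructor
    · have h1 : GenRigid d (thin H bad) := by
        rw [genRigid_iff_rank _ (by rw [ZMod.card]; omega), ZMod.card]
        exact circ_rigid (d := d) (thin H bad) hN hH' hk
      exact genRigid_hom φ.symm.toEquiv hadj h1
    · intro v
      have h1 := circ_del (d := d) (thin H bad) hN hH' hk
      refine genRigid_hom (((Equiv.addRight (φ v)).trans φ.symm.toEquiv).subtypeEquiv ?_) ?_ h1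
      · intro a
        show a ∉ ({0} : Set (ZMod p)) ↔ φ.symm (a + φ v) ∉ ({v} : Set V)
        rw [Set.mem_singleton_iff, Set.mem_singleton_iff, not_iff_not]
        constructor
        · intro h; rw [h, zero_add]; exact φ.symm_apply_apply v
        · intro h
          have h2 := congrArg φ h
          rw [φ.apply_symm_apply] at h2
          simpa using h2
      · rintro ⟨a, ha⟩ ⟨b, hb⟩ h
        exact hadj _ _ (hH' a b (φ v) h)
  · intro hpd
    have hd4 := four_le d
    have hdp : d ≤ Fintype.card V := by rw [hp]; omega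
    have hup := genRank_upper G hdp
    have hup2 := genRank_le_edges (d := d) G
    rw [hp] at hup
    have hmain : genRank d G = min G.edgeSet.ncard (d * p - d * (d + 1) / 2) := by
      apply le_antisymm
      · exact le_min hup2 (by omega)
      · rcases le_or_gt d (conn N H).card with hk | hk
        · have h1 := circ_rigid (d := d) H hN hH hk
          rw [hr]
          exact (min_le_right _ _).trans (by omega)
        · have h1 := circ_indep (d := d) H hN hH hk hpd
          rw [hr, hE]
          exact (min_le_left _ _).trans (hEle.trans h1)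
    refine ⟨hmain, ?_⟩
    rw [genRigid_iff_rank G hdp, hp, hmain]
    rcases le_total G.edgeSet.ncard (d * p - d * (d + 1) / 2) with h | h
    · rw [min_eq_left h]
    · rw [min_eq_right h]
      constructor
      · intro _; omega
      · intro _; omega

end Pool.Agent.Run7.h804.PV
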